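import Pool.Agent.H81.JM.Arr
import Mathlib

/-!
# H15/R2E/Cmp: composition of arrays

`tub a rho c e f g`: the array (degree `K * (Kr + 1)` in every coordinate) of
`(zeta, u) ↦ ev a (c + e zeta, ev rho zeta + f u + g)`: a polynomial of the raw coordinates
`(z, v)` in the coordinates of a tube around the sheet `rho`.
-/

set_option autoImplicit false

namespace Pool.TUB

open Finset MvPolynomial

variable {n K : ℕ}

/-- the exponent of a monomial as a finitely supported function. -/
noncomputable def ex (a : Fin n → Fin (K + 1)) : Fin n →₀ ℕ :=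
  Finsupp.equivFunOnFinite.symm fun i => (a i : ℕ)

theorem ex_apply (a : Fin n → Fin (K + 1)) (i : Fin n) : ex a i = (a i : ℕ) := rfl

theorem ex_inj : Function.Injective (ex : (Fin n → Fin (K + 1)) → Fin n →₀ ℕ) := by
  intro a b h
  funext i
  have := DFunLike.congr_fun h i
  rw [ex_apply, ex_apply] at this
  exact Fin.ext this

/-- A polynomial with degree at most `K` in every variable is the value of an array. -/
theorem ex_arr (P : MvPolynomial (Fin n) ℝ) (hP : ∀ i, P.degreeOf i ≤ K) (x : Fin n → ℝ) :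
    Pool.JMN.ev (fun a : Fin n → Fin (K + 1) => P.coeff (ex a)) x = MvPolynomial.eval x P := by
  classical
  rw [MvPolynomial.eval_eq']
  unfold Pool.JMN.ev
  have h1 : P.support ⊆ (Finset.univ : Finset (Fin n → Fin (K + 1))).image ex := by
    intro m hm
    have h2 : ∀ i, m i < K + 1 := fun i =>
      Nat.lt_succ_of_le ((MvPolynomial.monomial_le_degreeOf i hm).trans (hP i))
    refine Finset.mem_image.2 ⟨fun i => ⟨m i, h2 i⟩, Finset.mem_univ _, ?_⟩
    ext i
    rfl
  rw [Finset.sum_subset h1, Finset.sum_image fun a _ b _ h => ex_inj h]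
  · rfl
  · intro m _ hm
    rw [MvPolynomial.notMem_support_iff.1 hm, zero_mul]

/-- The polynomial of an array. -/
noncomputable def toP (q : (Fin n → Fin (K + 1)) → ℝ) : MvPolynomial (Fin n) ℝ :=
  ∑ a, C (q a) * ∏ i, X i ^ (a i : ℕ)

theorem eval_toP (q : (Fin n → Fin (K + 1)) → ℝ) (x : Fin n → ℝ) :
    MvPolynomial.eval x (toP q) = Pool.JMN.ev q x := by
  unfold toP Pool.JMN.ev
  rw [map_sum]
  refine Finset.sum_congr rfl fun a _ => ?_
  rw [map_mul, eval_C, map_prod]
  congr 1
  refine Finset.prod_congr rfl fun i _ => ?_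
  rw [map_pow, eval_X]

theorem deg_sum {ι : Type*} (s : Finset ι) (f : ι → MvPolynomial (Fin n) ℝ) (i : Fin n) {d : ℕ}
    (h : ∀ a ∈ s, (f a).degreeOf i ≤ d) : (∑ a ∈ s, f a).degreeOf i ≤ d := by
  classical
  induction s using Finset.induction_on with
  | empty => simp
  | insert a s ha ih =>
    rw [Finset.sum_insert ha]
    refine (degreeOf_add_le i _ _).trans (max_le (h a (Finset.mem_insert_self a s)) ?_)
    exact ih fun b hb => h b (Finset.mem_insert_of_mem hb)

theorem deg_prod {ι : Type*} (s : Finset ι) (f : ι → MvPolynomial (Fin n) ℝ) (i : Fin n) :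
    (∏ a ∈ s, f a).degreeOf i ≤ ∑ a ∈ s, (f a).degreeOf i := by
  classical
  induction s using Finset.induction_on with
  | empty => simp
  | insert a s ha ih =>
    rw [Finset.prod_insert ha, Finset.sum_insert ha]
    exact (degreeOf_mul_le i _ _).trans (Nat.add_le_add_left ih _)

theorem deg_pow (P : MvPolynomial (Fin n) ℝ) (i : Fin n) (m : ℕ) :
    (P ^ m).degreeOf i ≤ m * P.degreeOf i := by
  induction m with
  | zero => simp
  | succ m ih =>
    rw [pow_succ]
    refine (degreeOf_mul_le i _ _).trans ?_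
    rw [Nat.succ_mul]
    exact Nat.add_le_add_right ih _

theorem deg_toP (q : (Fin n → Fin (K + 1)) → ℝ) (i : Fin n) : (toP q).degreeOf i ≤ K := by
  unfold toP
  refine deg_sum _ _ i fun a _ => ?_
  refine (degreeOf_mul_le i _ _).trans ?_
  rw [degreeOf_C, zero_add]
  refine (deg_prod _ _ i).trans ?_
  rw [Finset.sum_eq_single i]
  · refine (deg_pow _ i _).trans ?_
    rw [degreeOf_X_self, mul_one]
    exact Nat.lt_succ_iff.1 (a i).isLt
  · intro j _ hj
    have := deg_pow (X j : MvPolynomial (Fin n) ℝ) i (a j : ℕ)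
    rw [degreeOf_X_of_ne hj.symm, mul_zero] at this
    exact Nat.le_zero.1 this
  · intro h
    exact absurd (Finset.mem_univ i) h

/-- The polynomial `(zeta, u) ↦ ev a (c + e zeta, ev rho zeta + f u + g)`. -/
noncomputable def tubP {k Kr : ℕ} (a : (Fin (k + 1) → Fin (K + 1)) → ℝ)
    (rho : (Fin k → Fin (Kr + 1)) → ℝ) (c e : Fin k → ℝ) (f g : ℝ) : MvPolynomial (Fin (k + 1)) ℝ :=
  ∑ α, C (a α) * ((∏ i : Fin k, (C (c i) + C (e i) * X i.castSucc) ^ (α i.castSucc : ℕ)) *
    (rename Fin.castSucc (toP rho) + (C f * X (Fin.last k) + C g)) ^ (α (Fin.last k) : ℕ))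

theorem eval_tubP {k Kr : ℕ} (a : (Fin (k + 1) → Fin (K + 1)) → ℝ)
    (rho : (Fin k → Fin (Kr + 1)) → ℝ) (c e : Fin k → ℝ) (f g : ℝ) (x : Fin (k + 1) → ℝ) :
    MvPolynomial.eval x (tubP a rho c e f g) =
      Pool.JMN.ev a (Fin.snoc (α := fun _ => ℝ) (fun i => c i + e i * x i.castSucc)
        (Pool.JMN.ev rho (fun i => x i.castSucc) + (f * x (Fin.last k) + g))) := by
  unfold tubP
  rw [map_sum]
  unfold Pool.JMN.ev
  refine Finset.sum_congr rfl fun α _ => ?_
  rw [map_mul, eval_C, map_mul, Fin.prod_univ_castSucc]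
  congr 1
  congr 1
  · rw [map_prod]
    refine Finset.prod_congr rfl fun i _ => ?_
    rw [map_pow, map_add, map_mul, eval_C, eval_C, eval_X, Fin.snoc_castSucc]
  · rw [map_pow, map_add, eval_rename, eval_toP, map_add, map_mul, eval_C, eval_C, eval_X,
      Fin.snoc_last]
    rfl

theorem deg_tubP {k Kr : ℕ} (a : (Fin (k + 1) → Fin (K + 1)) → ℝ)
    (rho : (Fin k → Fin (Kr + 1)) → ℝ) (c e : Fin k → ℝ) (f g : ℝ) (i : Fin (k + 1)) :
    (tubP a rho c e f g).degreeOf i ≤ K * (Kr + 1) := by
  classical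
  unfold tubP
  refine deg_sum _ _ i fun α _ => ?_
  refine (degreeOf_mul_le i _ _).trans ?_
  rw [degreeOf_C, zero_add]
  refine (degreeOf_mul_le i _ _).trans ?_
  have hα : ∀ j, (α j : ℕ) ≤ K := fun j => Nat.lt_succ_iff.1 (α j).isLt
  refine Fin.lastCases ?_ (fun j => ?_) i
  · -- the last coordinate
    have h1 : (∏ j : Fin k, (C (c j) + C (e j) * X j.castSucc) ^ (α j.castSucc : ℕ) :
        MvPolynomial (Fin (k + 1)) ℝ).degreeOf (Fin.last k) ≤ 0 := by
      refine (deg_prod _ _ _).trans (le_of_eq (Finset.sum_eq_zero fun j _ => ?_))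
      have h2 := deg_pow (C (c j) + C (e j) * X j.castSucc : MvPolynomial (Fin (k + 1)) ℝ)
        (Fin.last k) (α j.castSucc : ℕ)
      have h3 : (C (c j) + C (e j) * X j.castSucc : MvPolynomial (Fin (k + 1)) ℝ).degreeOf
          (Fin.last k) ≤ 0 := by
        refine (degreeOf_add_le _ _ _).trans (max_le ?_ ?_)
        · rw [degreeOf_C]
        · refine (degreeOf_mul_le _ _ _).trans ?_
          rw [degreeOf_C, zero_add, degreeOf_X_of_ne (Fin.castSucc_lt_last j).ne']
      rw [Nat.le_zero.1 h3, mul_zero] at h2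
      exact Nat.le_zero.1 h2
    have h4 : (rename Fin.castSucc (toP rho) + (C f * X (Fin.last k) + C g) :
        MvPolynomial (Fin (k + 1)) ℝ).degreeOf (Fin.last k) ≤ 1 := by
      refine (degreeOf_add_le _ _ _).trans (max_le ?_ ?_)
      · rw [degreeOf_le_iff]
        intro m hm
        have h5 := MvPolynomial.support_rename_of_injective (p := toP rho)
          (Fin.castSucc_injective k)
        rw [h5] at hm
        obtain ⟨m', _, rfl⟩ := Finset.mem_image.1 hm
        have h6 : (Fin.last k) ∉ Set.range (Fin.castSucc : Fin k → Fin (k + 1)) := by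
          rintro ⟨j, hj⟩
          exact (Fin.castSucc_lt_last j).ne hj
        rw [Finsupp.mapDomain_of_notMem_range _ _ h6]
        exact Nat.zero_le _
      · refine (degreeOf_add_le _ _ _).trans (max_le ?_ ?_)
        · refine (degreeOf_mul_le _ _ _).trans ?_
          rw [degreeOf_C, zero_add, degreeOf_X_self]
        · rw [degreeOf_C]
          exact Nat.zero_le _
    have h7 := deg_pow (rename Fin.castSucc (toP rho) + (C f * X (Fin.last k) + C g) :
        MvPolynomial (Fin (k + 1)) ℝ) (Fin.last k) (α (Fin.last k) : ℕ)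
    have h8 := Nat.mul_le_mul_left (α (Fin.last k) : ℕ) h4
    have h9 : K ≤ K * (Kr + 1) := Nat.le_mul_of_pos_right K (Nat.succ_pos Kr)
    have := hα (Fin.last k)
    omega
  · -- the other coordinates
    have h1 : (∏ j' : Fin k, (C (c j') + C (e j') * X j'.castSucc) ^ (α j'.castSucc : ℕ) :
        MvPolynomial (Fin (k + 1)) ℝ).degreeOf j.castSucc ≤ α j.castSucc := by
      refine (deg_prod _ _ _).trans ?_
      rw [Finset.sum_eq_single j]
      · refine (deg_pow _ _ _).trans ?_
        have h3 : (C (c j) + C (e j) * X j.castSucc : MvPolynomial (Fin (k + 1)) ℝ).degreeOf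
            j.castSucc ≤ 1 := by
          refine (degreeOf_add_le _ _ _).trans (max_le ?_ ?_)
          · rw [degreeOf_C]
            exact Nat.zero_le _
          · refine (degreeOf_mul_le _ _ _).trans ?_
            rw [degreeOf_C, zero_add, degreeOf_X_self]
        have := Nat.mul_le_mul_left (α j.castSucc : ℕ) h3
        omega
      · intro j' _ hj'
        have h2 := deg_pow (C (c j') + C (e j') * X j'.castSucc : MvPolynomial (Fin (k + 1)) ℝ)
          j.castSucc (α j'.castSucc : ℕ)
        have h3 : (C (c j') + C (e j') * X j'.castSucc : MvPolynomial (Fin (k + 1)) ℝ).degreeOf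
            j.castSucc ≤ 0 := by
          refine (degreeOf_add_le _ _ _).trans (max_le ?_ ?_)
          · rw [degreeOf_C]
          · refine (degreeOf_mul_le _ _ _).trans ?_
            rw [degreeOf_C, zero_add, degreeOf_X_of_ne]
            intro h
            exact hj' (Fin.castSucc_injective k h).symm
        rw [Nat.le_zero.1 h3, mul_zero] at h2
        exact Nat.le_zero.1 h2
      · intro h
        exact absurd (Finset.mem_univ j) h
    have h4 : (rename Fin.castSucc (toP rho) + (C f * X (Fin.last k) + C g) :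
        MvPolynomial (Fin (k + 1)) ℝ).degreeOf j.castSucc ≤ Kr := by
      refine (degreeOf_add_le _ _ _).trans (max_le ?_ ?_)
      · rw [degreeOf_rename_of_injective (Fin.castSucc_injective k)]
        exact deg_toP rho j
      · refine (degreeOf_add_le _ _ _).trans (max_le ?_ ?_)
        · refine (degreeOf_mul_le _ _ _).trans ?_
          rw [degreeOf_C, zero_add, degreeOf_X_of_ne (Fin.castSucc_lt_last j).ne]
          exact Nat.zero_le _
        · rw [degreeOf_C]
          exact Nat.zero_le _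
    have h7 := deg_pow (rename Fin.castSucc (toP rho) + (C f * X (Fin.last k) + C g) :
        MvPolynomial (Fin (k + 1)) ℝ) j.castSucc (α (Fin.last k) : ℕ)
    have h8 := Nat.mul_le_mul (hα (Fin.last k)) h4
    have h9 := hα j.castSucc
    have h10 : K * (Kr + 1) = K * Kr + K := by ring
    omega

/-- **The array in the coordinates of the tube.** -/
noncomputable def tub {k Kr : ℕ} (a : (Fin (k + 1) → Fin (K + 1)) → ℝ)
    (rho : (Fin k → Fin (Kr + 1)) → ℝ) (c e : Fin k → ℝ) (f g : ℝ)
    (α : Fin (k + 1) → Fin (K * (Kr + 1) + 1)) : ℝ :=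
  (tubP a rho c e f g).coeff (ex α)

theorem ev_tub {k Kr : ℕ} (a : (Fin (k + 1) → Fin (K + 1)) → ℝ)
    (rho : (Fin k → Fin (Kr + 1)) → ℝ) (c e : Fin k → ℝ) (f g : ℝ) (x : Fin (k + 1) → ℝ) :
    Pool.JMN.ev (tub a rho c e f g) x =
      Pool.JMN.ev a (Fin.snoc (α := fun _ => ℝ) (fun i => c i + e i * x i.castSucc)
        (Pool.JMN.ev rho (fun i => x i.castSucc) + (f * x (Fin.last k) + g))) := by
  rw [← eval_tubP, ← ex_arr (K := K * (Kr + 1)) _ (deg_tubP a rho c e f g)]
  rfl

/-- Affine change of the coordinates. -/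
def aff {k : ℕ} (q : (Fin k → Fin (K + 1)) → ℝ) (c e : Fin k → ℝ) (α : Fin k → Fin (K + 1)) : ℝ :=
  (∏ i, e i ^ (α i : ℕ)) * Pool.JMN.shf c q α

theorem ev_aff {k : ℕ} (q : (Fin k → Fin (K + 1)) → ℝ) (c e x : Fin k → ℝ) :
    Pool.JMN.ev (aff q c e) x = Pool.JMN.ev q (fun i => c i + e i * x i) := by
  rw [← Pool.JMN.ev_shf c q (fun i => e i * x i)]
  unfold Pool.JMN.ev aff
  refine Finset.sum_congr rfl fun α _ => ?_
  have : ∏ i, (e i * x i) ^ (α i : ℕ) = (∏ i, e i ^ (α i : ℕ)) * ∏ i, x i ^ (α i : ℕ) := by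
    rw [← Finset.prod_mul_distrib]
    exact Finset.prod_congr rfl fun i _ => mul_pow _ _ _
  rw [this]
  ring

end Pool.TUB
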