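import Pool.Agent.H15.R2E.Prm

/-!
# H15/R2E/Tub: the rows of the target in one cell, two leaves with separated gradients

`tub`: in a cell in which the base is full given the label `A` of the leaf `a` and given the label
`B` of the leaf `b`, and the gradient of `a - b` at the point is of size `2 ^ (-g0)` (up to
`2 ^ h0`), the digits of the target after `g0` are full given all the digits of the base.
-/

set_option autoImplicit false

namespace Pool.R1

open Finset Real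
open Pool.Agent.H49.Ent Pool.Agent.H32.Dense Pool.STK
open Pool.JMN (shf tdg ev_shf coef_le)

variable {k K : ℕ}

/-- The values near the point from the coefficients at the point. -/
theorem tub_up {q : (Fin k → Fin (K + 1)) → ℝ} {y z : Fin k → ℝ} {M ρ e : ℝ} (hρ0 : 0 ≤ ρ)
    (hρ : ρ ≤ 1) (h0 : |Pool.JMN.ev q y| ≤ e) (hc : ∀ al, 1 ≤ tdg al → |shf y q al| ≤ M)
    (hM : 0 ≤ M) (hz : ∀ l, |z l - y l| ≤ ρ) :
    |Pool.JMN.ev q z| ≤ e + ((K : ℝ) + 1) ^ k * (M * ρ) := by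
  classical
  have e1 : Pool.JMN.ev q z = Pool.JMN.ev (shf y q) (fun i => z i - y i) := by
    rw [ev_shf]
    congr 1
    funext i
    ring
  have e2 : Pool.JMN.ev q y = Pool.JMN.ev (shf y q) (fun _ => 0) := by
    rw [ev_shf]
    congr 1
    funext i
    ring
  have e3 : Pool.JMN.ev q z - Pool.JMN.ev q y = ∑ al : Fin k → Fin (K + 1),
      shf y q al * (∏ i, (z i - y i) ^ (al i : ℕ) - ∏ i : Fin k, (0 : ℝ) ^ (al i : ℕ)) := by
    rw [e1, e2]
    unfold Pool.JMN.ev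
    rw [← Finset.sum_sub_distrib]
    exact Finset.sum_congr rfl fun al _ => by ring
  have h1 : |Pool.JMN.ev q z - Pool.JMN.ev q y| ≤ ((K : ℝ) + 1) ^ k * (M * ρ) := by
    rw [e3]
    refine (Finset.abs_sum_le_sum_abs _ _).trans ?_
    have h2 : ∀ al : Fin k → Fin (K + 1), |shf y q al *
        (∏ i, (z i - y i) ^ (al i : ℕ) - ∏ i : Fin k, (0 : ℝ) ^ (al i : ℕ))| ≤ M * ρ := by
      intro al
      rcases Nat.eq_zero_or_pos (tdg al) with h | h
      · have h3 : ∀ i, (al i : ℕ) = 0 := by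
          intro i
          have h4 : (al i : ℕ) ≤ tdg al :=
            Finset.single_le_sum (f := fun i => (al i : ℕ)) (fun _ _ => Nat.zero_le _)
              (Finset.mem_univ i)
          omega
        have h5 : (∏ i, (z i - y i) ^ (al i : ℕ) - ∏ i : Fin k, (0 : ℝ) ^ (al i : ℕ)) = 0 := by
          rw [Finset.prod_eq_one fun i _ => by rw [h3 i, pow_zero],
            Finset.prod_eq_one fun i _ => by rw [h3 i, pow_zero], sub_self]
        rw [h5, mul_zero, abs_zero]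
        positivity
      · have h3 : ∃ i, (al i : ℕ) ≠ 0 := by
          by_contra hcon
          push Not at hcon
          have : tdg al = 0 := Finset.sum_eq_zero fun i _ => hcon i
          omega
        obtain ⟨i0, hi0⟩ := h3
        have h4 : ∏ i : Fin k, (0 : ℝ) ^ (al i : ℕ) = 0 :=
          Finset.prod_eq_zero (Finset.mem_univ i0) (zero_pow hi0)
        rw [h4, sub_zero, abs_mul]
        refine mul_le_mul (hc al h) ?_ (abs_nonneg _) hM
        rw [Finset.abs_prod]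
        have h5 : ∏ i, |(z i - y i) ^ (al i : ℕ)| ≤ ρ ^ tdg al := by
          unfold tdg
          rw [← Finset.prod_pow_eq_pow_sum]
          refine Finset.prod_le_prod (fun i _ => abs_nonneg _) fun i _ => ?_
          rw [abs_pow]
          exact pow_le_pow_left₀ (abs_nonneg _) (hz i) _
        refine h5.trans ?_
        calc ρ ^ tdg al ≤ ρ ^ 1 := pow_le_pow_of_le_one hρ0 hρ h
          _ = ρ := pow_one ρ
    refine (Finset.sum_le_sum fun al _ => h2 al).trans (le_of_eq ?_)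
    rw [Finset.sum_const, Finset.card_univ, Fintype.card_fun, Fintype.card_fin, Fintype.card_fin,
      nsmul_eq_mul]
    push_cast
    ring
  have h2 : |Pool.JMN.ev q z| ≤ |Pool.JMN.ev q y| + |Pool.JMN.ev q z - Pool.JMN.ev q y| := by
    have := abs_add_le (Pool.JMN.ev q y) (Pool.JMN.ev q z - Pool.JMN.ev q y)
    rwa [add_sub_cancel] at this
  linarith

/-- A large value near the point from one coefficient of order one. -/
theorem tub_lo (k K : ℕ) : ∃ C : ℝ, 1 ≤ C ∧ ∀ (q : (Fin k → Fin (K + 1)) → ℝ) (y : Fin k → ℝ)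
    (ρ c : ℝ), 0 < ρ → 0 < c → (∃ al, tdg al = 1 ∧ c ≤ |shf y q al|) →
    ∃ z : Fin k → ℝ, (∀ l, |z l - y l| ≤ ρ) ∧ c * ρ / (2 * C) ≤ |Pool.JMN.ev q z| := by
  obtain ⟨C, hC, h⟩ := coef_le k K
  refine ⟨C, hC, fun q y ρ c hρ hc ⟨al, ha, hal⟩ => ?_⟩
  by_contra hcon
  push Not at hcon
  have hC0 : 0 < C := by linarith
  have h1 := h (shf y q) ρ (c * ρ / (2 * C)) hρ (fun x hx => by
    rw [ev_shf]
    refine (hcon _ fun l => ?_).le
    rw [add_sub_cancel_left, abs_of_nonneg (hx l).1]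
    exact (hx l).2) al
  rw [ha, pow_one] at h1
  have h2 : C * (c * ρ / (2 * C)) = c * ρ / 2 := by
    field_simp
  rw [h2] at h1
  have h3 : c * ρ ≤ |shf y q al| * ρ := mul_le_mul_of_nonneg_right hal hρ.le
  have h4 : 0 < c * ρ := mul_pos hc hρ
  linarith

/-- **The rows of the target in one cell.** -/
theorem tub (k : ℕ) : ∃ C1 : ℝ, 0 ≤ C1 ∧ ∀ K : ℕ, ∃ (H : ℕ) (C2 : ℝ), 0 ≤ C2 ∧
    ∀ {Ω α β τ δ : Type} [Fintype Ω] {p : Ω → ℝ} {X s₀ S h h0 : ℕ} {g0 : ℝ} {cap : Fin k → ℕ}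
      {A : Ω → α} {B : Ω → β} {W : Ω → τ} {D : Ω → δ} {y : Ω → Fin k → ℝ} {N : Ω → ℝ}
      {a b : Ω → (Fin k → Fin (K + 1)) → ℝ} {th Lf : ℝ},
      IsLaw p → s₀ ≤ S → 1 ≤ X → 0 ≤ th → 0 ≤ g0 → h0 + H ≤ h →
      (∀ ω i, 0 ≤ y ω i) → (∀ ω i, y ω i < 1) →
      Det p (fun ω => (A ω, W ω)) a → Det p (fun ω => (B ω, W ω)) b →
      (∀ ω, 0 < p ω → ∀ al, 1 ≤ tdg al →
        |shf (y ω) (fun al => a ω al - b ω al) al| ≤ (2 : ℝ) ^ ((h0 : ℝ) - g0)) →
      (∀ ω, 0 < p ω → ∃ al, tdg al = 1 ∧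
        (2 : ℝ) ^ (-g0 - h0) ≤ |shf (y ω) (fun al => a ω al - b ω al) al|) →
      (∀ ω, 0 < p ω → |N ω - Pool.JMN.ev (a ω) (y ω)| ≤ (2 : ℝ) ^ (-(g0 + S * X) - 1)) →
      (∀ ω, 0 < p ω → |N ω - Pool.JMN.ev (b ω) (y ω)| ≤ (2 : ℝ) ^ (-(g0 + S * X) - 1)) →
      (∀ ω, 0 < p ω → ∀ z z' : Fin k → ℝ, (∀ l, |z l| ≤ 2) → (∀ l, |z' l| ≤ 2) →
        (∀ l, |z l - z' l| ≤ 2 / 2 ^ (cap l * X)) →
        |Pool.JMN.ev (a ω) z - Pool.JMN.ev (a ω) z'| ≤ (2 : ℝ) ^ (-(g0 + S * X) - h - 3)) →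
      (∀ ω, 0 < p ω → ∀ z z' : Fin k → ℝ, (∀ l, |z l| ≤ 2) → (∀ l, |z' l| ≤ 2) →
        (∀ l, |z l - z' l| ≤ 2 / 2 ^ (cap l * X)) →
        |Pool.JMN.ev (b ω) z - Pool.JMN.ev (b ω) z'| ≤ (2 : ℝ) ^ (-(g0 + S * X) - h - 3)) →
      Det p (fun ω => (D ω, W ω)) (cv X y cap) →
      (∀ d : Fin k → ℕ, (∀ l, d l ≤ cap l) →
        CH p D (fun ω => (W ω, cv X y d ω)) ≤ Lf - (∑ l, (d l : ℝ)) * (X * Real.log 2) + h) →
      Lf - th ≤ CH p D (fun ω => (B ω, W ω)) → Lf - th ≤ CH p D (fun ω => (A ω, W ω)) →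
      Rows p N D W ⌈g0 + s₀ * X⌉₊ ⌈g0 + S * X⌉₊
        (C1 * ((((S - s₀ : ℕ) : ℝ) + 1) * th + X) +
          C2 * ((((S - s₀ : ℕ) : ℝ) + 1) * (1 + h))) := by
  obtain ⟨C1, hC1, h1⟩ := r1l_n k 1
  refine ⟨C1, hC1, fun K => ?_⟩
  obtain ⟨C2, hC2, h2⟩ := h1 K
  obtain ⟨C3, hC3, hlo⟩ := tub_lo k K
  obtain ⟨H, hH⟩ := exists_nat_ge (1 + ((K : ℝ) + 1) ^ k + 2 * C3)
  have hK0 : (0 : ℝ) ≤ ((K : ℝ) + 1) ^ k := by positivity
  have hHH : 1 + ((K : ℝ) + 1) ^ k + 2 * C3 ≤ (2 : ℝ) ^ (H : ℝ) := by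
    refine hH.trans ?_
    rw [Real.rpow_natCast]
    exact_mod_cast Nat.lt_two_pow_self.le
  refine ⟨H, C2, hC2, ?_⟩
  intro Ω α β τ δ _ p X s₀ S h h0 g0 cap A B W D y N a b th Lf hp hs0 hX hth hg0 hh y0 y1 da db hc
    hg na nb ga gb dc cnt fb fa
  have hhr : (h0 : ℝ) + H ≤ h := by exact_mod_cast hh
  have hX0 : (0 : ℝ) ≤ X := Nat.cast_nonneg X
  have hdiff : ∀ ω, 0 < p ω →
      |Pool.JMN.ev (fun al => a ω al - b ω al) (y ω)| ≤ (2 : ℝ) ^ (-(g0 + S * X)) := by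
    intro ω hω
    rw [Pool.JMN.ev_sub]
    have i1 := na ω hω
    have i2 := nb ω hω
    have i3 : (2 : ℝ) ^ (-(g0 + S * X) - 1) = 2 ^ (-(g0 + S * X)) / 2 := by
      rw [Real.rpow_sub_one (by norm_num)]
    rw [i3] at i1 i2
    rw [abs_sub_comm] at i1
    have i4 := abs_add_le (Pool.JMN.ev (a ω) (y ω) - N ω) (N ω - Pool.JMN.ev (b ω) (y ω))
    rw [sub_add_sub_cancel] at i4
    linarith
  have hpw : ∀ i : ℕ, (1 : ℝ) / 2 ^ (i * X) = (2 : ℝ) ^ (-((i : ℝ) * X)) := by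
    intro i
    rw [Real.rpow_neg (by norm_num), one_div]
    congr 1
    rw [← Nat.cast_mul, Real.rpow_natCast]
  have HS : SupN p k K 1 X S h s₀ (fun i => g0 + i * X) cap A B W D y N a b th Lf := by
    constructor
    · exact hp
    · exact hX
    · exact hth
    · exact y0
    · exact y1
    · intro i
      positivity
    · intro i _ _
      push_cast
      linarith
    · intro i _ _
      push_cast
      have : (0 : ℝ) ≤ h := Nat.cast_nonneg h
      linarith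
    · exact da
    · exact db
    · intro ω hω i _ hi z hz
      rw [← Pool.JMN.ev_sub]
      have hiS : (i : ℝ) * X ≤ S * X := by
        have : (i : ℝ) ≤ S := by exact_mod_cast hi
        exact mul_le_mul_of_nonneg_right this hX0
      have hρ0 : (0 : ℝ) ≤ 1 / 2 ^ (i * X) := by positivity
      have hρ1 : (1 : ℝ) / 2 ^ (i * X) ≤ 1 := by
        rw [div_le_one (by positivity)]
        exact one_le_pow₀ (by norm_num)
      have j1 := tub_up hρ0 hρ1 (hdiff ω hω) (hc ω hω) (by positivity) hz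
      rw [hpw, ← Real.rpow_add (by norm_num)] at j1
      have j2 : (2 : ℝ) ^ (-(g0 + S * X)) ≤ 2 ^ ((h0 : ℝ) - g0 + -((i : ℝ) * X)) := by
        refine Real.rpow_le_rpow_of_exponent_le (by norm_num) ?_
        have : (0 : ℝ) ≤ h0 := Nat.cast_nonneg h0
        linarith
      have j3 : (2 : ℝ) ^ ((h : ℝ) - (g0 + i * X)) ≥
          2 ^ (H : ℝ) * 2 ^ ((h0 : ℝ) - g0 + -((i : ℝ) * X)) := by
        rw [← Real.rpow_add (by norm_num)]
        refine Real.rpow_le_rpow_of_exponent_le (by norm_num) ?_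
        linarith
      have j4 : (0 : ℝ) < 2 ^ ((h0 : ℝ) - g0 + -((i : ℝ) * X)) := by positivity
      have j5 : (1 + ((K : ℝ) + 1) ^ k) * 2 ^ ((h0 : ℝ) - g0 + -((i : ℝ) * X)) ≤
          2 ^ (H : ℝ) * 2 ^ ((h0 : ℝ) - g0 + -((i : ℝ) * X)) := by
        refine mul_le_mul_of_nonneg_right ?_ j4.le
        linarith
      linarith
    · intro ω hω i _ _
      obtain ⟨z, hz, hz'⟩ := hlo (fun al => a ω al - b ω al) (y ω) (1 / 2 ^ (i * X))
        ((2 : ℝ) ^ (-g0 - h0)) (by positivity) (by positivity) (hg ω hω)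
      refine ⟨z, hz, ?_⟩
      rw [← Pool.JMN.ev_sub]
      refine le_trans ?_ hz'
      rw [hpw, ← Real.rpow_add (by norm_num), le_div_iff₀ (by linarith)]
      have j1 : (2 : ℝ) ^ (-(g0 + i * X) - (h : ℝ)) * (2 * C3) ≤
          (2 : ℝ) ^ (-(g0 + i * X) - (h : ℝ)) * 2 ^ (H : ℝ) :=
        mul_le_mul_of_nonneg_left (by linarith) (by positivity)
      refine j1.trans ?_
      rw [← Real.rpow_add (by norm_num)]
      refine Real.rpow_le_rpow_of_exponent_le (by norm_num) ?_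
      linarith
    · exact ga
    · exact gb
    · exact na
    · exact dc
    · exact cnt
    · exact fb
    · exact fa
  exact h2 HS hs0

/-- The number of values of a floor. -/
theorem fl_dif {x y L : ℝ} (h : |x - y| ≤ L) : |((⌊x⌋ - ⌊y⌋ : ℤ) : ℝ)| ≤ L + 1 := by
  have h1 := Int.floor_le x
  have h2 := Int.lt_floor_add_one x
  have h3 := Int.floor_le y
  have h4 := Int.lt_floor_add_one y
  push_cast
  rw [abs_le] at h ⊢
  constructor <;> linarith [h.1, h.2]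

/-- **Fullness in the cells of a tube.** The coordinates `y` are free, `v` is near to a sheet over
`y` which is known given the label `A` and the world `W`: the cell (depth `q` in all the
coordinates) costs `q` digits for each coordinate of `y` only. -/
theorem tub_full {Ω α τ δ : Type} [Fintype Ω] {p : Ω → ℝ} (hp : IsLaw p) (D : Ω → δ) (A : Ω → α)
    (W : Ω → τ) (y : Ω → Fin k → ℝ) (v : Ω → ℝ) (q : ℕ) {M : ℝ}
    (hy : ∀ ω, 0 < p ω → ∀ i, |y ω i| ≤ 1)
    (hv : ∀ ω ω', 0 < p ω → 0 < p ω' → A ω = A ω' → W ω = W ω' →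
      (∀ i, |y ω i - y ω' i| ≤ 1 / 2 ^ q) → |v ω - v ω'| ≤ M / 2 ^ q) :
    CH p D (fun ω => (A ω, W ω)) - (k * (q * Real.log 2 + Real.log 7) + Real.log (2 * M + 3)) ≤
      CH p D (fun ω => (A ω, (W ω, ((fun i => ⌊(2 : ℝ) ^ q * y ω i⌋), ⌊(2 : ℝ) ^ q * v ω⌋)))) := by
  classical
  have hp0 := hp.nonneg
  obtain ⟨c1, hc1⟩ : ∃ c1 : Ω → Fin k → ℤ, c1 = fun ω i => ⌊(2 : ℝ) ^ q * y ω i⌋ := ⟨_, rfl⟩
  obtain ⟨c2, hc2⟩ : ∃ c2 : Ω → ℤ, c2 = fun ω => ⌊(2 : ℝ) ^ q * v ω⌋ := ⟨_, rfl⟩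
  have hq0 : (0 : ℝ) < 2 ^ q := by positivity
  have hq1 : (1 : ℝ) ≤ 2 ^ q := one_le_pow₀ (by norm_num)
  have e1 : CH p D (fun ω => (A ω, W ω)) ≤ CH p c1 (fun ω => (A ω, W ω)) +
      CH p D (fun ω => (c1 ω, (A ω, W ω))) := CH_le_add hp0 _ _ _
  have e2 : CH p D (fun ω => (c1 ω, (A ω, W ω))) ≤ CH p c2 (fun ω => (c1 ω, (A ω, W ω))) +
      CH p D (fun ω => (c2 ω, (c1 ω, (A ω, W ω)))) := CH_le_add hp0 _ _ _
  have e3 : CH p c1 (fun ω => (A ω, W ω)) ≤ k * (q * Real.log 2 + Real.log 7) := by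
    have h1 := CH_le_vec hp0 hp.sum_one c1 (fun ω => (A ω, W ω)) (fun _ => 2 * (2 : ℝ) ^ q + 1)
      (fun ω ω' h h' _ i => by
        rw [hc1]
        refine fl_dif ?_
        rw [← mul_sub, abs_mul, abs_of_pos hq0, mul_comm]
        refine mul_le_mul_of_nonneg_right ?_ hq0.le
        have h2 := abs_sub (y ω i) (y ω' i)
        have h3 := hy ω h i
        have h4 := hy ω' h' i
        linarith)
    rw [Ex_const hp.sum_one] at h1
    refine h1.trans (mul_le_mul_of_nonneg_left ?_ (Nat.cast_nonneg k))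
    have h2 : Real.log (2 * (2 * (2 : ℝ) ^ q + 1) + 1) ≤ Real.log (2 ^ q * 7) :=
      Real.log_le_log (by positivity) (by linarith)
    rw [Real.log_mul (by positivity) (by norm_num), Real.log_pow] at h2
    exact h2
  have e4 : CH p c2 (fun ω => (c1 ω, (A ω, W ω))) ≤ Real.log (2 * M + 3) := by
    have h1 := CH_le_vec hp0 hp.sum_one (fun ω (_ : Fin 1) => c2 ω) (fun ω => (c1 ω, (A ω, W ω)))
      (fun _ => M + 1) (fun ω ω' h h' hh i => by
        rw [hc2]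
        refine fl_dif ?_
        simp only [Prod.mk.injEq] at hh
        obtain ⟨hh1, hh2, hh3⟩ := hh
        have h2 := hv ω ω' h h' hh2 hh3 fun i => by
          have h3 : ⌊(2 : ℝ) ^ q * y ω i⌋ = ⌊(2 : ℝ) ^ q * y ω' i⌋ := by
            have := congrFun hh1 i
            rwa [hc1] at this
          have h4 := Int.floor_le ((2 : ℝ) ^ q * y ω i)
          have h5 := Int.lt_floor_add_one ((2 : ℝ) ^ q * y ω i)
          have h6 := Int.floor_le ((2 : ℝ) ^ q * y ω' i)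
          have h7 := Int.lt_floor_add_one ((2 : ℝ) ^ q * y ω' i)
          rw [h3] at h4 h5
          rw [le_div_iff₀ hq0]
          have h8 : |(2 : ℝ) ^ q * (y ω i - y ω' i)| ≤ 1 := by
            rw [mul_sub, abs_le]
            constructor <;> linarith
          rw [abs_mul, abs_of_pos hq0, mul_comm] at h8
          exact h8
        rw [← mul_sub, abs_mul, abs_of_pos hq0]
        rw [le_div_iff₀ hq0] at h2
        linarith)
    rw [Ex_const hp.sum_one] at h1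
    have h2 : CH p (fun ω (_ : Fin 1) => c2 ω) (fun ω => (c1 ω, (A ω, W ω))) =
        CH p c2 (fun ω => (c1 ω, (A ω, W ω))) := by
      refine CH_congr hp0 ?_ ?_ (fun _ _ _ _ h => h) (fun _ _ _ _ h => h)
      · intro ω ω' _ _ hh
        exact congrFun (Prod.ext_iff.1 hh).1 0
      · intro ω ω' _ _ hh
        funext i
        exact (Prod.ext_iff.1 hh).1
    rw [h2] at h1
    refine h1.trans (le_of_eq ?_)
    push_cast
    rw [one_mul]
    congr 1
    ring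
  have e5 : CH p D (fun ω => (c2 ω, (c1 ω, (A ω, W ω)))) =
      CH p D (fun ω => (A ω, (W ω, (c1 ω, c2 ω)))) := by
    refine CH_congr hp0 (fun _ _ _ _ h => (Prod.ext_iff.1 h).1)
      (fun _ _ _ _ h => (Prod.ext_iff.1 h).1) ?_ ?_
    · intro ω ω' _ _ hh
      simp only [Prod.mk.injEq] at hh ⊢
      tauto
    · intro ω ω' _ _ hh
      simp only [Prod.mk.injEq] at hh ⊢
      tauto
  have e6 : (fun ω => (A ω, (W ω, ((fun i => ⌊(2 : ℝ) ^ q * y ω i⌋), ⌊(2 : ℝ) ^ q * v ω⌋)))) =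
      fun ω => (A ω, (W ω, (c1 ω, c2 ω))) := by
    rw [hc1, hc2]
  rw [e6, ← e5]
  linarith

end Pool.R1
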