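import Pool.Agent.H96.R1.Cor
import Pool.Agent.H15.R2E.Tub

/-!
# H15/R2E/Tco: rows of the target in one cell, from a law and an event

`tcore`: on the event `F` the order-one part of `a - b` at the point dominates in the cell and has
a coefficient of size at least `2 ^ (-P₀)`. For a popular size of the coefficient the rows of the
target are full for every law on the event.
-/

set_option autoImplicit false

namespace Pool.R1

open Finset Real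
open Pool.Agent.H49.Ent Pool.Agent.H32.Dense Pool.STK
open Pool.JMN (shf tdg ev_shf coef_le)
open Pool.BFL (Pb)
open Pool.JMP (pig)

/-- The Taylor coefficients of a quotient. -/
theorem shf_div {k K : ℕ} (z : Fin k → ℝ) (q : (Fin k → Fin (K + 1)) → ℝ) (t : ℝ)
    (al : Fin k → Fin (K + 1)) : shf z (fun α => q α / t) al = shf z q al / t := by
  unfold Pool.JMN.shf
  rw [Finset.sum_div]
  exact Finset.sum_congr rfl fun b _ => by ring

/-- **The rows in one cell, for a popular size of the gradient.** -/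
theorem tcore (k : ℕ) : ∃ C1 : ℝ, 0 ≤ C1 ∧ ∀ K : ℕ, ∃ (c : ℕ) (C2 : ℝ), 0 ≤ C2 ∧
    ∀ {Ω : Type} [Fintype Ω] (p : Ω → ℝ) (X h Pp P₀ Pn J G hi : ℕ) (gd : Fin k → ℕ)
    (y : Ω → Fin k → ℝ) (N : Ω → ℝ) (a b : Ω → (Fin k → Fin (K + 1)) → ℝ) (F : Ω → Prop),
    c ≤ h → 1 ≤ X → P₀ + G + c < h * (Pp + 1) → P₀ + G ≤ hi → hi + 2 * X + 2 * h + c ≤ J →
    hi + X + 1 ≤ Pn + G →
    (∀ ω i, 0 ≤ y ω i) → (∀ ω i, y ω i < 1) →
    (∀ ω, F ω → 0 < p ω → |N ω - Pool.JMN.ev (a ω) (y ω)| ≤ 1 / 2 ^ Pn) →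
    (∀ ω, F ω → 0 < p ω → |N ω - Pool.JMN.ev (b ω) (y ω)| ≤ 1 / 2 ^ Pn) →
    (∀ ω, F ω → 0 < p ω → ∀ z z' : Fin k → ℝ, (∀ l, |z l| ≤ 2) → (∀ l, |z' l| ≤ 2) →
      |Pool.JMN.ev (a ω) z - Pool.JMN.ev (a ω) z'| ≤ 2 ^ G * ∑ l, |z l - z' l| / 2 ^ gd l) →
    (∀ ω, F ω → 0 < p ω → ∀ z z' : Fin k → ℝ, (∀ l, |z l| ≤ 2) → (∀ l, |z' l| ≤ 2) →
      |Pool.JMN.ev (b ω) z - Pool.JMN.ev (b ω) z'| ≤ 2 ^ G * ∑ l, |z l - z' l| / 2 ^ gd l) →
    (∀ ω, F ω → 0 < p ω → ∃ al, tdg al = 1 ∧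
      1 / 2 ^ P₀ ≤ |shf (y ω) (fun α => a ω α - b ω α) al| ∧
      ∀ al', 1 ≤ tdg al' → |shf (y ω) (fun α => a ω α - b ω α) al'| ≤
        |shf (y ω) (fun α => a ω α - b ω α) al|) →
    ∃ (n₁ n₂ S : ℕ) (E : Ω → Prop), (∀ ω, E ω → F ω) ∧ Pb p F ≤ ((Pp : ℝ) + 1) * Pb p E ∧
      P₀ + G ≤ n₁ ∧ n₁ ≤ P₀ + G + X ∧ hi ≤ n₂ ∧ n₂ ≤ hi + X ∧ n₂ = n₁ + S * X ∧
      ∀ {α β τ δ : Type} {Q : Ω → ℝ} {A : Ω → α} {B : Ω → β} {W : Ω → τ} {D : Ω → δ}
        {th Lf : ℝ}, IsLaw Q → (∀ ω, 0 < Q ω → E ω ∧ 0 < p ω) → 0 ≤ th →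
        Det Q (fun ω => (A ω, W ω)) a → Det Q (fun ω => (B ω, W ω)) b →
        Det Q (fun ω => (D ω, W ω)) (cv X y fun l => (J - gd l) / X) →
        (∀ d : Fin k → ℕ, (∀ l, d l ≤ (J - gd l) / X) →
          CH Q D (fun ω => (W ω, cv X y d ω)) ≤ Lf - (∑ l, (d l : ℝ)) * (X * Real.log 2) + h) →
        Lf - th ≤ CH Q D (fun ω => (B ω, W ω)) → Lf - th ≤ CH Q D (fun ω => (A ω, W ω)) →
        Rows Q (fun ω => N ω / 2 ^ G) D W n₁ n₂
          (C1 * (((S : ℝ) + 1) * th + X) + C2 * (((S : ℝ) + 1) * (1 + h))) := by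
  classical
  obtain ⟨C1, hC1, htub⟩ := tub k
  refine ⟨C1, hC1, fun K => ?_⟩
  obtain ⟨H, C2, hC2, htub⟩ := htub K
  obtain ⟨Cc, hCc, hcoef⟩ := coef_le k K
  obtain ⟨c₁, hc₁⟩ := exists_nat_ge (Cc * (2 * k + 1))
  have hc₁' : Cc * (2 * k + 1) ≤ (2 : ℝ) ^ (c₁ : ℝ) := by
    refine hc₁.trans ?_
    rw [Real.rpow_natCast]
    exact_mod_cast Nat.lt_two_pow_self.le
  refine ⟨c₁ + H + k + 5, 2 * C2, by positivity, ?_⟩
  intro Ω _ p X h Pp P₀ Pn J G hi gd y N a b F hch hX hmesh hlo hJ hPn y0 y1 hna hnb hga hgb hlin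
  have hk0 : (0 : ℝ) ≤ k := Nat.cast_nonneg k
  have h0 : 0 < h := by omega
  have h0r : (0 : ℝ) < h := by exact_mod_cast h0
  have pG : (0 : ℝ) < 2 ^ G := by positivity
  obtain ⟨a', ha'⟩ : ∃ a' : Ω → (Fin k → Fin (K + 1)) → ℝ, a' = fun ω α => a ω α / 2 ^ G := ⟨_, rfl⟩
  obtain ⟨b', hb'⟩ : ∃ b' : Ω → (Fin k → Fin (K + 1)) → ℝ, b' = fun ω α => b ω α / 2 ^ G := ⟨_, rfl⟩
  have ea : ∀ ω x, Pool.JMN.ev (a' ω) x = Pool.JMN.ev (a ω) x / 2 ^ G := by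
    intro ω x
    rw [ha']
    exact ev_div _ _ _
  have eb : ∀ ω x, Pool.JMN.ev (b' ω) x = Pool.JMN.ev (b ω) x / 2 ^ G := by
    intro ω x
    rw [hb']
    exact ev_div _ _ _
  obtain ⟨q, hq⟩ : ∃ q : Ω → (Fin k → Fin (K + 1)) → ℝ, q = fun ω α => a' ω α - b' ω α := ⟨_, rfl⟩
  have eq1 : ∀ ω, q ω = fun α => (a ω α - b ω α) / 2 ^ G := by
    intro ω
    rw [hq, ha', hb']
    funext α
    ring
  have eq2 : ∀ ω al, shf (y ω) (q ω) al = shf (y ω) (fun α => a ω α - b ω α) al / 2 ^ G := by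
    intro ω al
    rw [eq1, shf_div]
  -- bounds of the scaled leaves
  have hga' : ∀ ω, F ω → 0 < p ω → ∀ z z' : Fin k → ℝ, (∀ l, |z l| ≤ 2) → (∀ l, |z' l| ≤ 2) →
      |Pool.JMN.ev (a' ω) z - Pool.JMN.ev (a' ω) z'| ≤ ∑ l, |z l - z' l| / 2 ^ gd l := by
    intro ω h1 h2 z z' h3 h4
    rw [ea, ea, ← sub_div, abs_div, abs_of_pos pG, div_le_iff₀ pG, mul_comm]
    exact hga ω h1 h2 z z' h3 h4
  have hgb' : ∀ ω, F ω → 0 < p ω → ∀ z z' : Fin k → ℝ, (∀ l, |z l| ≤ 2) → (∀ l, |z' l| ≤ 2) →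
      |Pool.JMN.ev (b' ω) z - Pool.JMN.ev (b' ω) z'| ≤ ∑ l, |z l - z' l| / 2 ^ gd l := by
    intro ω h1 h2 z z' h3 h4
    rw [eb, eb, ← sub_div, abs_div, abs_of_pos pG, div_le_iff₀ pG, mul_comm]
    exact hgb ω h1 h2 z z' h3 h4
  have hPnG : (1 : ℝ) / 2 ^ Pn / 2 ^ G ≤ 1 / 2 := by
    rw [div_div, ← pow_add]
    refine one_div_le_one_div_of_le (by norm_num) ?_
    calc (2 : ℝ) = 2 ^ 1 := by norm_num
      _ ≤ 2 ^ (Pn + G) := pow_le_pow_right₀ (by norm_num) (by omega)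
  have hna' : ∀ ω, F ω → 0 < p ω →
      |N ω / 2 ^ G - Pool.JMN.ev (a' ω) (y ω)| ≤ 1 / 2 ^ Pn / 2 ^ G := by
    intro ω h1 h2
    rw [ea, ← sub_div, abs_div, abs_of_pos pG]
    exact div_le_div_of_nonneg_right (hna ω h1 h2) pG.le
  have hnb' : ∀ ω, F ω → 0 < p ω →
      |N ω / 2 ^ G - Pool.JMN.ev (b' ω) (y ω)| ≤ 1 / 2 ^ Pn / 2 ^ G := by
    intro ω h1 h2
    rw [eb, ← sub_div, abs_div, abs_of_pos pG]
    exact div_le_div_of_nonneg_right (hnb ω h1 h2) pG.le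
  -- the coefficients are bounded
  have hco : ∀ ω, F ω → 0 < p ω → ∀ al, |shf (y ω) (q ω) al| ≤ (2 : ℝ) ^ (c₁ : ℝ) := by
    intro ω h1 h2 al
    have h3 := hcoef (shf (y ω) (q ω)) 1 (2 * k + 1) one_pos (fun x hx => by
      rw [ev_shf]
      have hz : ∀ l, |y ω l + x l| ≤ 2 := by
        intro l
        rw [abs_of_nonneg (add_nonneg (y0 ω l) (hx l).1)]
        linarith [(y1 ω l).le, (hx l).2]
      have hy : ∀ l, |y ω l| ≤ 2 := by
        intro l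
        rw [abs_of_nonneg (y0 ω l)]
        linarith [(y1 ω l).le]
      have i1 := hga' ω h1 h2 _ _ hz hy
      have i2 := hgb' ω h1 h2 _ _ hz hy
      have i3 := hna' ω h1 h2
      have i4 := hnb' ω h1 h2
      have i5 : ∑ l, |y ω l + x l - y ω l| / 2 ^ gd l ≤ k := by
        have : ∀ l ∈ (Finset.univ : Finset (Fin k)), |y ω l + x l - y ω l| / 2 ^ gd l ≤ 1 := by
          intro l _
          rw [div_le_one (by positivity), add_sub_cancel_left, abs_of_nonneg (hx l).1]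
          exact (hx l).2.trans (one_le_pow₀ (by norm_num))
        refine (Finset.sum_le_sum this).trans (le_of_eq ?_)
        simp
      rw [hq, Pool.JMN.ev_sub]
      rw [abs_le] at i1 i2 i3 i4 ⊢
      constructor <;> linarith [i1.1, i1.2, i2.1, i2.2, i3.1, i3.2, i4.1, i4.2]) al
    rw [one_pow, mul_one] at h3
    exact h3.trans hc₁'
  -- the size of the gradient
  have hex : ∀ ω, ∃ s : ℝ, F ω → 0 < p ω → (2 : ℝ) ^ (-(((P₀ + G : ℕ)) : ℝ)) ≤ s ∧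
      s ≤ (2 : ℝ) ^ (c₁ : ℝ) ∧ (∃ al, tdg al = 1 ∧ |shf (y ω) (q ω) al| = s) ∧
      ∀ al', 1 ≤ tdg al' → |shf (y ω) (q ω) al'| ≤ s := by
    intro ω
    by_cases h1 : F ω ∧ 0 < p ω
    · obtain ⟨al, e1, e2, e3⟩ := hlin ω h1.1 h1.2
      refine ⟨|shf (y ω) (q ω) al|, fun _ _ => ⟨?_, hco ω h1.1 h1.2 al, ⟨al, e1, rfl⟩, ?_⟩⟩
      · rw [eq2, abs_div, abs_of_pos pG, le_div_iff₀ pG]
        refine le_trans (le_of_eq ?_) e2
        rw [Real.rpow_neg (by norm_num), Real.rpow_natCast, pow_add]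
        field_simp
      · intro al' h2
        rw [eq2, eq2, abs_div, abs_div, abs_of_pos pG]
        exact div_le_div_of_nonneg_right (e3 al' h2) pG.le
    · exact ⟨0, fun h2 h3 => absurd ⟨h2, h3⟩ h1⟩
  choose s hs using hex
  -- the popular size
  obtain ⟨f, hf⟩ : ∃ f : Ω → Fin (Pp + 1), ∀ ω, F ω → 0 < p ω →
      ((f ω : ℕ) : ℝ) * h ≤ c₁ - Real.logb 2 (s ω) ∧
      (c₁ : ℝ) - Real.logb 2 (s ω) < ((f ω : ℕ) + 1) * h := by
    refine ⟨fun ω => ⟨min Pp ⌊((c₁ : ℝ) - Real.logb 2 (s ω)) / h⌋₊, by omega⟩,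
      fun ω h1 h2 => ?_⟩
    obtain ⟨j1, j2, -, -⟩ := hs ω h1 h2
    have j0 : 0 < s ω := lt_of_lt_of_le (by positivity) j1
    have j3 : Real.logb 2 (s ω) ≤ c₁ := by
      rw [Real.logb_le_iff_le_rpow (by norm_num) j0]
      exact j2
    have j4 : -(((P₀ + G : ℕ)) : ℝ) ≤ Real.logb 2 (s ω) := by
      rw [Real.le_logb_iff_rpow_le (by norm_num) j0]
      exact j1
    have j5 : 0 ≤ ((c₁ : ℝ) - Real.logb 2 (s ω)) / h := div_nonneg (by linarith) h0r.le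
    have j6 := Nat.floor_le j5
    have j7 := Nat.lt_floor_add_one (((c₁ : ℝ) - Real.logb 2 (s ω)) / h)
    have j8 : ⌊((c₁ : ℝ) - Real.logb 2 (s ω)) / h⌋₊ ≤ Pp := by
      have : ⌊((c₁ : ℝ) - Real.logb 2 (s ω)) / h⌋₊ < Pp + 1 := by
        rw [Nat.floor_lt j5, div_lt_iff₀ h0r]
        have e1 : ((P₀ + G + c₁ : ℕ) : ℝ) < ((h * (Pp + 1) : ℕ) : ℝ) := by
          exact_mod_cast (by omega : P₀ + G + c₁ < h * (Pp + 1))
        push_cast at e1 j4 ⊢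
        linarith
      omega
    have j9 : ((min Pp ⌊((c₁ : ℝ) - Real.logb 2 (s ω)) / h⌋₊ : ℕ) : ℝ) =
        ⌊((c₁ : ℝ) - Real.logb 2 (s ω)) / h⌋₊ := by rw [min_eq_right j8]
    simp only
    rw [j9]
    rw [le_div_iff₀ h0r] at j6
    rw [div_lt_iff₀ h0r] at j7
    exact ⟨j6, j7⟩
  obtain ⟨t, ht⟩ := pig p F f
  obtain ⟨n₁, hn₁⟩ : ∃ n₁ : ℕ, n₁ = (t : ℕ) * h - c₁ := ⟨_, rfl⟩
  have hX0 : 0 < X := hX
  have key : ∀ ω, F ω → 0 < p ω → f ω = t → s ω ≤ (2 : ℝ) ^ ((h : ℝ) - n₁) ∧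
      (2 : ℝ) ^ (-(n₁ : ℝ) - h) ≤ s ω := by
    intro ω h1 h2 h3
    obtain ⟨j1, j2, -, -⟩ := hs ω h1 h2
    have j0 : 0 < s ω := lt_of_lt_of_le (by positivity) j1
    obtain ⟨i1, i2⟩ := hf ω h1 h2
    rw [h3] at i1 i2
    have hc1h : (c₁ : ℝ) ≤ h := by exact_mod_cast (by omega : c₁ ≤ h)
    constructor
    · rw [← Real.logb_le_iff_le_rpow (by norm_num) j0]
      rcases le_total c₁ ((t : ℕ) * h) with h4 | h4
      · have h5 : ((n₁ : ℕ) : ℝ) = (t : ℕ) * h - c₁ := by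
          rw [hn₁, Nat.cast_sub h4]
          push_cast
          ring
        rw [h5]
        linarith
      · have h5 : n₁ = 0 := by omega
        rw [h5, Nat.cast_zero, sub_zero]
        have h6 : (0 : ℝ) ≤ (t : ℕ) * h := by positivity
        linarith
    · rw [← Real.le_logb_iff_rpow_le (by norm_num) j0]
      rcases le_total c₁ ((t : ℕ) * h) with h4 | h4
      · have h5 : ((n₁ : ℕ) : ℝ) = (t : ℕ) * h - c₁ := by
          rw [hn₁, Nat.cast_sub h4]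
          push_cast
          ring
        rw [h5]
        linarith
      · have h5 : n₁ = 0 := by omega
        have h6 : (((t : ℕ) * h : ℕ) : ℝ) ≤ c₁ := by exact_mod_cast h4
        rw [h5, Nat.cast_zero]
        push_cast at h6
        linarith
  by_cases hemp : ∃ ω, F ω ∧ 0 < p ω ∧ f ω = t
  · -- the popular event is not empty
    obtain ⟨ω₀, g1, g2, g3⟩ := hemp
    have hn1 : n₁ ≤ P₀ + G := by
      obtain ⟨j1, j2, -, -⟩ := hs ω₀ g1 g2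
      have j0 : 0 < s ω₀ := lt_of_lt_of_le (by positivity) j1
      have j4 : -(((P₀ + G : ℕ)) : ℝ) ≤ Real.logb 2 (s ω₀) := by
        rw [Real.le_logb_iff_rpow_le (by norm_num) j0]
        exact j1
      obtain ⟨i1, -⟩ := hf ω₀ g1 g2
      rw [g3] at i1
      have h5 : (((t : ℕ) * h : ℕ) : ℝ) ≤ ((c₁ + (P₀ + G) : ℕ) : ℝ) := by
        push_cast at j4 ⊢
        linarith
      have h6 : (t : ℕ) * h ≤ c₁ + (P₀ + G) := by exact_mod_cast h5
      omega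
    have hn1hi : n₁ ≤ hi := hn1.trans hlo
    obtain ⟨S, hS⟩ : ∃ S : ℕ, S = (hi - n₁) / X + 1 := ⟨_, rfl⟩
    have hdm := Nat.div_add_mod (hi - n₁) X
    have hml := Nat.mod_lt (hi - n₁) (by omega : 0 < X)
    have hSX : S * X = X * ((hi - n₁) / X) + X := by
      rw [hS]
      ring
    have hS1 : hi ≤ n₁ + S * X := by omega
    have hS2 : n₁ + S * X ≤ hi + X := by omega
    obtain ⟨s₀, hs₀⟩ : ∃ s₀ : ℕ, s₀ = (P₀ + G - n₁) / X + 1 := ⟨_, rfl⟩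
    have hdm' := Nat.div_add_mod (P₀ + G - n₁) X
    have hml' := Nat.mod_lt (P₀ + G - n₁) (by omega : 0 < X)
    have hsX : s₀ * X = X * ((P₀ + G - n₁) / X) + X := by
      rw [hs₀]
      ring
    have hs1 : P₀ + G ≤ n₁ + s₀ * X := by omega
    have hs2 : n₁ + s₀ * X ≤ P₀ + G + X := by omega
    have hs3 : s₀ ≤ S := by
      rw [hs₀, hS]
      exact Nat.add_le_add_right (Nat.div_le_div_right (by omega)) 1
    have hs4 : n₁ + S * X = n₁ + s₀ * X + (S - s₀) * X := by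
      obtain ⟨u, rfl⟩ := Nat.exists_eq_add_of_le hs3
      rw [Nat.add_sub_cancel_left]
      ring
    refine ⟨n₁ + s₀ * X, n₁ + S * X, S - s₀, fun ω => F ω ∧ f ω = t, fun ω h1 => h1.1, ?_, hs1,
      hs2, hS1, hS2, hs4, ?_⟩
    · rw [Fintype.card_fin] at ht
      push_cast at ht
      exact ht
    intro α β τ δ Q A B W D th Lf hQ hQE hth da db dc cnt fb fa
    have hgS : ((n₁ : ℝ) + S * X) = ((n₁ + S * X : ℕ) : ℝ) := by push_cast; ring
    have hPr : (1 : ℝ) / 2 ^ Pn / 2 ^ G ≤ 2 ^ (-((n₁ : ℝ) + S * X) - 1) := by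
      rw [div_div, ← pow_add, one_div, ← Real.rpow_natCast, ← Real.rpow_neg (by norm_num)]
      refine Real.rpow_le_rpow_of_exponent_le (by norm_num) ?_
      have : ((n₁ + S * X + 1 : ℕ) : ℝ) ≤ ((Pn + G : ℕ) : ℝ) := by exact_mod_cast (by omega)
      rw [hgS]
      push_cast at this ⊢
      linarith
    have hcap : ∀ (u : (Fin k → Fin (K + 1)) → ℝ),
        (∀ z z' : Fin k → ℝ, (∀ l, |z l| ≤ 2) → (∀ l, |z' l| ≤ 2) →
          |Pool.JMN.ev u z - Pool.JMN.ev u z'| ≤ ∑ l, |z l - z' l| / 2 ^ gd l) →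
        ∀ z z' : Fin k → ℝ, (∀ l, |z l| ≤ 2) → (∀ l, |z' l| ≤ 2) →
          (∀ l, |z l - z' l| ≤ 2 / 2 ^ ((J - gd l) / X * X)) →
          |Pool.JMN.ev u z - Pool.JMN.ev u z'| ≤
            (2 : ℝ) ^ (-((n₁ : ℝ) + S * X) - (2 * h : ℕ) - 3) := by
      intro u hu z z' hz hz' hzz
      refine (hu z z' hz hz').trans ?_
      have h1 : ∀ l ∈ (Finset.univ : Finset (Fin k)), |z l - z' l| / 2 ^ gd l ≤
          2 / 2 ^ (J - X) := by
        intro l _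
        have h2 : |z l - z' l| / 2 ^ gd l ≤ 2 / 2 ^ ((J - gd l) / X * X) / 2 ^ gd l :=
          div_le_div_of_nonneg_right (hzz l) (by positivity)
        refine h2.trans ?_
        rw [div_div, ← pow_add]
        refine div_le_div_of_nonneg_left (by norm_num) (by positivity) ?_
        refine pow_le_pow_right₀ (by norm_num) ?_
        have h3 := Nat.div_add_mod (J - gd l) X
        have h4 := Nat.mod_lt (J - gd l) (by omega : 0 < X)
        have h5 : (J - gd l) / X * X = X * ((J - gd l) / X) := Nat.mul_comm _ _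
        omega
      refine (Finset.sum_le_sum h1).trans ?_
      rw [Finset.sum_const, Finset.card_univ, Fintype.card_fin, nsmul_eq_mul]
      have h6 : (k : ℝ) ≤ 2 ^ k := by exact_mod_cast Nat.lt_two_pow_self.le
      have h7 : (k : ℝ) * (2 / 2 ^ (J - X)) ≤ 2 ^ k * (2 / 2 ^ (J - X)) :=
        mul_le_mul_of_nonneg_right h6 (by positivity)
      refine h7.trans ?_
      have h8 : (2 : ℝ) ^ k * (2 / 2 ^ (J - X)) = 2 ^ ((k : ℝ) + 1 - ((J - X : ℕ) : ℝ)) := by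
        rw [Real.rpow_sub (by norm_num), Real.rpow_add (by norm_num), Real.rpow_natCast,
          Real.rpow_natCast, Real.rpow_one]
        ring
      rw [h8]
      refine Real.rpow_le_rpow_of_exponent_le (by norm_num) ?_
      have h9 : ((k + 1 + (n₁ + S * X) + 2 * h + 3 : ℕ) : ℝ) ≤ ((J - X : ℕ) : ℝ) := by
        exact_mod_cast (by omega)
      rw [hgS]
      push_cast at h9 ⊢
      linarith
    have key2 := htub (p := Q) (X := X) (s₀ := s₀) (S := S) (h := 2 * h) (h0 := h)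
      (g0 := (n₁ : ℝ)) (cap := fun l => (J - gd l) / X) (A := A) (B := B) (W := W) (D := D)
      (y := y) (N := fun ω => N ω / 2 ^ G) (a := a') (b := b') (th := th) (Lf := Lf) hQ hs3 hX hth
      (Nat.cast_nonneg n₁) (by omega) y0 y1
      (fun ω ω' h1 h2 h3 => by
        have := da ω ω' h1 h2 h3
        rw [ha']
        simp only
        rw [this])
      (fun ω ω' h1 h2 h3 => by
        have := db ω ω' h1 h2 h3
        rw [hb']
        simp only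
        rw [this])
      (fun ω h1 al h2 => by
        obtain ⟨⟨h3, h4⟩, h5⟩ := hQE ω h1
        have h6 := (hs ω h3 h5).2.2.2 al h2
        rw [hq] at h6
        exact h6.trans (key ω h3 h5 h4).1)
      (fun ω h1 => by
        obtain ⟨⟨h3, h4⟩, h5⟩ := hQE ω h1
        obtain ⟨al, h6, h7⟩ := (hs ω h3 h5).2.2.1
        refine ⟨al, h6, ?_⟩
        rw [hq] at h7
        rw [h7]
        exact (key ω h3 h5 h4).2)
      (fun ω h1 => by
        obtain ⟨⟨h3, h4⟩, h5⟩ := hQE ω h1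
        exact (hna' ω h3 h5).trans hPr)
      (fun ω h1 => by
        obtain ⟨⟨h3, h4⟩, h5⟩ := hQE ω h1
        exact (hnb' ω h3 h5).trans hPr)
      (fun ω h1 => by
        obtain ⟨⟨h3, h4⟩, h5⟩ := hQE ω h1
        exact hcap _ (hga' ω h3 h5))
      (fun ω h1 => by
        obtain ⟨⟨h3, h4⟩, h5⟩ := hQE ω h1
        exact hcap _ (hgb' ω h3 h5))
      dc (fun d hd => (cnt d hd).trans (by push_cast; linarith)) fb fa
    have e1 : ⌈((n₁ : ℝ) + S * X)⌉₊ = n₁ + S * X := by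
      rw [hgS, Nat.ceil_natCast]
    have e1' : ⌈((n₁ : ℝ) + s₀ * X)⌉₊ = n₁ + s₀ * X := by
      have : ((n₁ : ℝ) + s₀ * X) = ((n₁ + s₀ * X : ℕ) : ℝ) := by push_cast; ring
      rw [this, Nat.ceil_natCast]
    rw [e1', e1] at key2
    refine key2.mono ?_
    obtain ⟨u, hu⟩ : ∃ u : ℕ, u = S - s₀ := ⟨_, rfl⟩
    rw [← hu]
    have e2 : C2 * (((u : ℝ) + 1) * (1 + ((2 * h : ℕ) : ℝ))) ≤
        2 * C2 * (((u : ℝ) + 1) * (1 + h)) := by
      have e3 : (((u : ℝ) + 1) * (1 + ((2 * h : ℕ) : ℝ))) ≤ 2 * (((u : ℝ) + 1) * (1 + h)) := by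
        push_cast
        nlinarith [Nat.cast_nonneg (α := ℝ) u]
      calc C2 * (((u : ℝ) + 1) * (1 + ((2 * h : ℕ) : ℝ))) ≤ C2 * (2 * (((u : ℝ) + 1) * (1 + h))) :=
            mul_le_mul_of_nonneg_left e3 hC2
        _ = 2 * C2 * (((u : ℝ) + 1) * (1 + h)) := by ring
    linarith
  · -- no point
    obtain ⟨S, hS⟩ : ∃ S : ℕ, S = (hi - (P₀ + G)) / X + 1 := ⟨_, rfl⟩
    have hdm := Nat.div_add_mod (hi - (P₀ + G)) X
    have hml := Nat.mod_lt (hi - (P₀ + G)) (by omega : 0 < X)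
    have hSX : S * X = X * ((hi - (P₀ + G)) / X) + X := by
      rw [hS]
      ring
    refine ⟨P₀ + G, P₀ + G + S * X, S, fun ω => F ω ∧ f ω = t, fun ω h1 => h1.1, ?_, le_rfl,
      by omega, by omega, by omega, rfl, ?_⟩
    · rw [Fintype.card_fin] at ht
      push_cast at ht
      exact ht
    intro α β τ δ Q A B W D th Lf hQ hQE _ _ _ _ _ _ _
    exfalso
    have h1 : ∀ ω, Q ω = 0 := by
      intro ω
      by_contra h2
      have h3 : 0 < Q ω := lt_of_le_of_ne (hQ.nonneg ω) (Ne.symm h2)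
      obtain ⟨⟨h4, h5⟩, h6⟩ := hQE ω h3
      exact hemp ⟨ω, h4, h6, h5⟩
    have h2 := hQ.sum_one
    rw [Finset.sum_congr rfl fun ω _ => h1 ω, Finset.sum_const_zero] at h2
    exact zero_ne_one h2

end Pool.R1
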