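import Pool.Agent.H96.R1.Geo
import Pool.Agent.H15.R2E.Tco

/-!
# H15/R2E/TubJ: rows of the target in the tube of a falling coordinate, for one member

`TubJ`: the geometry of pairs for two falling coordinates. The base has `k + 1` coordinates; the
coordinate `lv` is near to a sheet over the other ones, for the labels of both samples (`sa`, `sb`).
The cells have the depth `d` in all the `k + 1` natural coordinates. On the event `E` the target is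
on both leaves `a`, `b`, and the order-one part of `a - b` at the point dominates on the cell and
has a coefficient of size at least `2 ^ (-P₀)` (`lin`).

`tub_inp`: fullness given a label and the world with the cell. `tfam`: the rows.
-/

set_option autoImplicit false

namespace Pool.R1

open Finset Real
open Pool.Agent.H49.Ent Pool.Agent.H32.Dense Pool.STK Pool.KA Pool.KSAT Pool.K2S Pool.PB Pool.STAT
  Pool.GEN Pool.M3F Pool.KM7 Pool.S6C Pool.JPN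
open Pool.JMN (shf tdg)
open Pool.BFL (Pb)

variable {m J : ℕ}

/-- **The geometry of the pairs in the tube.** -/
structure TubJ (k K n₀ : ℕ) (F : Fam m J) (A : F.Ω → Prop) (c : ℕ → Fin m)
    (w₀ w₁ sg d M G Pn P₀ : ℕ) (g : ℕ → ℕ) (lv : Fin (k + 1)) {V₀ V₁ : Type} (P : V₀ → ℕ → PN)
    (z₀ : PtT F → V₀) (z₀' : LnT F → V₀) (z₁ : PtT F → V₁) (z₁' : LnT F → V₁)
    (br : F.Ω × F.Ω → Fin n₀) (a b : F.Ω × F.Ω → (Fin (k + 1) → Fin (K + 1)) → ℝ)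
    (E : F.Ω × F.Ω → Prop) : Prop where
  /-- the chart at the window `w₀` is triangular -/
  tri : ∀ v, TriN (P v)
  /-- the chart is closed at the window `w₀` -/
  cls₀ : ∀ ω, A ω → z₀ (ptr F J ω) = z₀' (slam F w₀ ω)
  /-- the label is closed at the window `w₁` -/
  cls₁ : ∀ ω, A ω → z₁ (ptr F J ω) = z₁' (slam F w₁ ω)
  /-- the points are in the natural boxes -/
  pos : ∀ ω, A ω → ∀ i < k + 1, |ntc F c P z₀ ω i| ≤ 1 / 2 ^ g i
  /-- the leaf of the second sample, on the cell of the first one -/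
  da : ∀ e e', E e → E e' → AA F z₁' w₁ e = AA F z₁' w₁ e' →
    WW (k + 1) F c P z₀ z₀' g d w₀ br e = WW (k + 1) F c P z₀ z₀' g d w₀ br e' → a e = a e'
  /-- the leaf of the first sample, on its cell -/
  db : ∀ e e', E e → E e' → BB F z₁' w₁ e = BB F z₁' w₁ e' →
    WW (k + 1) F c P z₀ z₀' g d w₀ br e = WW (k + 1) F c P z₀ z₀' g d w₀ br e' → b e = b e'
  na : ∀ e, E e → |F.x e.1 (c (k + 1)) / 2 ^ sg -
    Pool.JMN.ev (a e) (yc (k + 1) F c P z₀ g d e.1)| ≤ 1 / 2 ^ Pn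
  nb : ∀ e, E e → |F.x e.1 (c (k + 1)) / 2 ^ sg -
    Pool.JMN.ev (b e) (yc (k + 1) F c P z₀ g d e.1)| ≤ 1 / 2 ^ Pn
  ga : ∀ e, E e → ∀ z z' : Fin (k + 1) → ℝ, (∀ l, |z l| ≤ 2) → (∀ l, |z' l| ≤ 2) →
    |Pool.JMN.ev (a e) z - Pool.JMN.ev (a e) z'| ≤
      2 ^ G * ∑ l : Fin (k + 1), |z l - z' l| / 2 ^ (g l + d)
  gb : ∀ e, E e → ∀ z z' : Fin (k + 1) → ℝ, (∀ l, |z l| ≤ 2) → (∀ l, |z' l| ≤ 2) →
    |Pool.JMN.ev (b e) z - Pool.JMN.ev (b e) z'| ≤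
      2 ^ G * ∑ l : Fin (k + 1), |z l - z' l| / 2 ^ (g l + d)
  /-- the order-one part of the difference of the leaves -/
  lin : ∀ e, E e → ∃ al : Fin (k + 1) → Fin (K + 1), tdg al = 1 ∧
    1 / 2 ^ P₀ ≤ |shf (yc (k + 1) F c P z₀ g d e.1) (fun α => a e α - b e α) al| ∧
    ∀ al', 1 ≤ tdg al' → |shf (yc (k + 1) F c P z₀ g d e.1) (fun α => a e α - b e α) al'| ≤
      |shf (yc (k + 1) F c P z₀ g d e.1) (fun α => a e α - b e α) al|
  /-- the sheet of the falling coordinate, for the label of the second sample -/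
  sa : ∀ e e', E e → E e' → AA F z₁' w₁ e = AA F z₁' w₁ e' → F.W e.1 = F.W e'.1 →
    z₀' (slam F w₀ e.1) = z₀' (slam F w₀ e'.1) →
    (∀ i : Fin k, |(2 : ℝ) ^ g (lv.succAbove i) * ntc F c P z₀ e.1 (lv.succAbove i) -
      2 ^ g (lv.succAbove i) * ntc F c P z₀ e'.1 (lv.succAbove i)| ≤ 1 / 2 ^ d) →
    |(2 : ℝ) ^ g lv * ntc F c P z₀ e.1 lv - 2 ^ g lv * ntc F c P z₀ e'.1 lv| ≤ 2 ^ M / 2 ^ d
  /-- the sheet of the falling coordinate, for the label of the first sample -/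
  sb : ∀ e e', E e → E e' → BB F z₁' w₁ e = BB F z₁' w₁ e' → F.W e.1 = F.W e'.1 →
    z₀' (slam F w₀ e.1) = z₀' (slam F w₀ e'.1) →
    (∀ i : Fin k, |(2 : ℝ) ^ g (lv.succAbove i) * ntc F c P z₀ e.1 (lv.succAbove i) -
      2 ^ g (lv.succAbove i) * ntc F c P z₀ e'.1 (lv.succAbove i)| ≤ 1 / 2 ^ d) →
    |(2 : ℝ) ^ g lv * ntc F c P z₀ e.1 lv - 2 ^ g lv * ntc F c P z₀ e'.1 lv| ≤ 2 ^ M / 2 ^ d

/-- **Fullness given a label and the world with the cell.** -/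
theorem tub_inp {k n₀ : ℕ} {F : Fam m J} {c : ℕ → Fin m} {w₀ d M : ℕ} {g : ℕ → ℕ}
    {lv : Fin (k + 1)} {V₀ : Type} {P : V₀ → ℕ → PN} {z₀ : PtT F → V₀} {z₀' : LnT F → V₀}
    {br : F.Ω × F.Ω → Fin n₀} {Q : F.Ω × F.Ω → ℝ} (hQ : IsLaw Q) {κ χ : Type}
    (Kk : F.Ω × F.Ω → κ) (Cd : F.Ω × F.Ω → χ)
    (hdet : Det Q Cd (fun e => (Kk e, (F.W e.1, z₀' (slam F w₀ e.1)))))
    (hpos : ∀ e, 0 < Q e → ∀ i < k + 1, |ntc F c P z₀ e.1 i| ≤ 1 / 2 ^ g i)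
    (hsh : ∀ e e', 0 < Q e → 0 < Q e' → Kk e = Kk e' → F.W e.1 = F.W e'.1 →
      z₀' (slam F w₀ e.1) = z₀' (slam F w₀ e'.1) →
      (∀ i : Fin k, |(2 : ℝ) ^ g (lv.succAbove i) * ntc F c P z₀ e.1 (lv.succAbove i) -
        2 ^ g (lv.succAbove i) * ntc F c P z₀ e'.1 (lv.succAbove i)| ≤ 1 / 2 ^ d) →
      |(2 : ℝ) ^ g lv * ntc F c P z₀ e.1 lv - 2 ^ g lv * ntc F c P z₀ e'.1 lv| ≤ 2 ^ M / 2 ^ d)
    {E₀ : ℝ} (hE : E₀ ≤ CH Q (fun e (i : Fin (k + 1)) => F.X J e.1 (c i)) Cd) :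
    E₀ - (k * (d * Real.log 2 + Real.log 7) + Real.log (2 * 2 ^ M + 3)) - Real.log n₀ ≤
      CH Q (fun e (i : Fin (k + 1)) => F.X J e.1 (c i))
        (fun e => (Kk e, WW (k + 1) F c P z₀ z₀' g d w₀ br e)) := by
  classical
  have hq0 := hQ.nonneg
  obtain ⟨X, hX⟩ : ∃ X : F.Ω × F.Ω → Fin (k + 1) → ℤ,
    X = fun e (i : Fin (k + 1)) => F.X J e.1 (c i) := ⟨_, rfl⟩
  obtain ⟨Wb, hWb⟩ : ∃ Wb : F.Ω × F.Ω → (ℕ × F.ζ) × V₀,
    Wb = fun e => (F.W e.1, z₀' (slam F w₀ e.1)) := ⟨_, rfl⟩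
  rw [← hX] at hE ⊢
  have h1 : CH Q X Cd ≤ CH Q X (fun e => (Kk e, Wb e)) := by
    refine CH_mono_cond hq0 ?_
    rw [hWb]
    exact hdet
  have h2 := tub_full (k := k) hQ X Kk Wb
    (fun e i => (2 : ℝ) ^ g (lv.succAbove i) * ntc F c P z₀ e.1 (lv.succAbove i))
    (fun e => (2 : ℝ) ^ g lv * ntc F c P z₀ e.1 lv) d (M := 2 ^ M)
    (fun e he i => by
      have h3 := hpos e he (lv.succAbove i) (lv.succAbove i).isLt
      rw [abs_mul, abs_of_pos (by positivity : (0 : ℝ) < 2 ^ g (lv.succAbove i))]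
      rw [le_div_iff₀ (by positivity)] at h3
      linarith)
    (fun e e' he he' h3 h4 h5 => by
      rw [hWb] at h4
      simp only [Prod.mk.injEq] at h4
      exact hsh e e' he he' h3 h4.1 h4.2 h5)
  obtain ⟨Cc, hCc⟩ : ∃ Cc : F.Ω × F.Ω → κ × (((ℕ × F.ζ) × V₀) × ((Fin k → ℤ) × ℤ)),
    Cc = fun e => (Kk e, (Wb e, ((fun i => ⌊(2 : ℝ) ^ d * ((2 : ℝ) ^ g (lv.succAbove i) *
      ntc F c P z₀ e.1 (lv.succAbove i))⌋), ⌊(2 : ℝ) ^ d * ((2 : ℝ) ^ g lv *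
      ntc F c P z₀ e.1 lv)⌋))) := ⟨_, rfl⟩
  rw [← hCc] at h2
  have h3 : CH Q X Cc ≤ CH Q br Cc + CH Q X (fun e => (br e, Cc e)) := CH_le_add hq0 _ _ _
  have h4 : CH Q br Cc ≤ Real.log n₀ := by
    refine (CH_le_card hq0 hQ.sum_one br Cc (fun _ => Finset.univ)
      (fun _ _ => Finset.mem_univ _)).trans (le_of_eq ?_)
    rw [Ex_const hQ.sum_one, Finset.card_univ, Fintype.card_fin]
  have h5 : CH Q X (fun e => (br e, Cc e)) ≤
      CH Q X (fun e => (Kk e, WW (k + 1) F c P z₀ z₀' g d w₀ br e)) := by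
    refine CH_mono_cond hq0 fun e e' _ _ hh => ?_
    rw [hCc, hWb] at hh
    simp only [Prod.mk.injEq] at hh
    obtain ⟨i1, i2, ⟨i3, i4⟩, i5, i6⟩ := hh
    have i7 : ce (k + 1) F c P z₀ g d e.1 = ce (k + 1) F c P z₀ g d e'.1 := by
      have hpw : ∀ (i : Fin (k + 1)) (ω : F.Ω), ce (k + 1) F c P z₀ g d ω i =
          ⌊(2 : ℝ) ^ d * ((2 : ℝ) ^ g i * ntc F c P z₀ ω i)⌋ := by
        intro i ω
        unfold ce
        congr 1
        rw [pow_add]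
        ring
      funext i
      rw [hpw, hpw]
      rcases eq_or_ne i lv with h6 | h6
      · rw [h6]
        exact i6
      · obtain ⟨j, rfl⟩ := Fin.exists_succAbove_eq h6
        exact congrFun i5 j
    exact Prod.ext i2 (Prod.ext i3 (Prod.ext i4 (Prod.ext i7 i1)))
  linarith

/-- **The rows in the tube, for one member.** -/
theorem tfam (k : ℕ) : ∃ C1 : ℝ, 0 ≤ C1 ∧ ∀ K : ℕ, ∃ (c₀ : ℕ) (C2 : ℝ), 0 ≤ C2 ∧
    ∀ {m J : ℕ} {F : Fam m J} {A : F.Ω → Prop} {c : ℕ → Fin m} {n₀ w₀ w₁ sg d M G Pn P₀ : ℕ}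
      {g : ℕ → ℕ} {lv : Fin (k + 1)} {V₀ V₁ : Type} {P : V₀ → ℕ → PN} {z₀ : PtT F → V₀}
      {z₀' : LnT F → V₀} {z₁ : PtT F → V₁} {z₁' : LnT F → V₁} {br : F.Ω × F.Ω → Fin n₀}
      {a b : F.Ω × F.Ω → (Fin (k + 1) → Fin (K + 1)) → ℝ} {E : F.Ω × F.Ω → Prop},
      TubJ k K n₀ F A c w₀ w₁ sg d M G Pn P₀ g lv P z₀ z₀' z₁ z₁' br a b E → 0 < Pe F.p A →
      w₀ ≤ w₁ → w₁ ≤ J → (∀ i < k + 1, g i + d ≤ J) →
      ∀ (X h Pp hi : ℕ), c₀ ≤ h → 1 ≤ X → P₀ + G + c₀ < h * (Pp + 1) → P₀ + G ≤ hi →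
      hi + 2 * X + 2 * h + c₀ ≤ J → hi + X + 1 ≤ Pn + G →
      ∃ (n₁ n₂ S : ℕ) (E' : F.Ω × F.Ω → Prop), (∀ e, E' e → E e) ∧
        Pe (P2 (Pool.Agent.H49.Ent.cond F.p A True) (slam F w₀)) E ≤ ((Pp : ℝ) + 1) *
          Pe (P2 (Pool.Agent.H49.Ent.cond F.p A True) (slam F w₀)) E' ∧
        P₀ + G ≤ n₁ ∧ n₁ ≤ P₀ + G + X ∧ hi ≤ n₂ ∧ n₂ ≤ hi + X ∧ n₂ = n₁ + S * X ∧
        ∀ {Q : F.Ω × F.Ω → ℝ} {E₀ th : ℝ}, IsLaw Q →
          (∀ e, 0 < Q e → E' e ∧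
            0 < P2 (Pool.Agent.H49.Ent.cond F.p A True) (slam F w₀) e) → 0 ≤ th →
          (∀ (V : Type) (z : PtT F → V) (z' : LnT F → V),
            (∀ ω, A ω → z (ptr F J ω) = z' (slam F w₁ ω)) →
            E₀ ≤ CH Q (fun e (i : Fin (k + 1)) => F.X J e.1 (c i))
              (fun e => (F.T e.1, (z' (slam F w₁ e.2), F.W e.2))) ∧
            E₀ ≤ CH Q (fun e (i : Fin (k + 1)) => F.X J e.1 (c i))
              (fun e => (z' (slam F w₁ e.1), F.W e.1))) →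
          (∑ i : Fin (k + 1), ((J : ℝ) - g i - d)) * Real.log 2 - th ≤
            E₀ - (k * (d * Real.log 2 + Real.log 7) + Real.log (2 * 2 ^ M + 3)) - Real.log n₀ →
          Rows Q (fun e => F.x e.1 (c (k + 1)) / 2 ^ (sg + G))
            (fun e (i : Fin (k + 1)) => F.X J e.1 (c i))
            (WW (k + 1) F c P z₀ z₀' g d w₀ br) n₁ n₂
            (C1 * (((S : ℝ) + 1) * th + X) + C2 * (((S : ℝ) + 1) * (1 + h))) := by
  classical
  obtain ⟨C1, hC1, hcore⟩ := tcore (k + 1)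
  refine ⟨C1, hC1, fun K => ?_⟩
  obtain ⟨c₁, C2, hC2, hcore⟩ := hcore K
  refine ⟨c₁ + 2 * (k + 1), C2, hC2, ?_⟩
  intro m J F A c n₀ w₀ w₁ sg d M G Pn P₀ g lv V₀ V₁ P z₀ z₀' z₁ z₁' br a b E H hA hw hw₁ hgJ X h
    Pp hi hc hX hmesh hlo hJ hPn
  have hl := isLaw_cond F.isLaw hA
  have hP2 := P2_isLaw hl (slam F w₀)
  obtain ⟨n₁, n₂, S, E', e1, e2, e3, e3', e4, e5, e6, e7⟩ := hcore
    (P2 (Pool.Agent.H49.Ent.cond F.p A True) (slam F w₀)) X h Pp P₀ Pn J G hi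
    (fun l => g l + d) (fun e => yc (k + 1) F c P z₀ g d e.1)
    (fun e => F.x e.1 (c (k + 1)) / 2 ^ sg) a b E
    (by omega) hX (by omega) hlo (by omega) hPn
    (fun e i => yc_nonneg e.1 i) (fun e i => yc_lt e.1 i) (fun e h1 _ => H.na e h1)
    (fun e h1 _ => H.nb e h1) (fun e h1 _ => H.ga e h1) (fun e h1 _ => H.gb e h1)
    (fun e h1 _ => H.lin e h1)
  refine ⟨n₁, n₂, S, E', e1, ?_, e3, e3', e4, e5, e6, ?_⟩
  · rw [pb_pe, pb_pe] at e2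
    exact e2
  intro Q E₀ th hQ hQE hth hfull hE₀
  have hs : ∀ e, 0 < Q e → A e.1 ∧ A e.2 ∧ slam F w₀ e.1 = slam F w₀ e.2 := by
    intro e he
    obtain ⟨c1, c2, c3⟩ := (P2_pos hl e).1 (hQE e he).2
    exact ⟨of_eq_true ((cond_pos_iff F.isLaw.nonneg A True e.1).1 c1).2,
      of_eq_true ((cond_pos_iff F.isLaw.nonneg A True e.2).1 c2).2, c3⟩
  have hEE : ∀ e, 0 < Q e → E e := fun e he => e1 e (hQE e he).1
  have e0 : ∀ ω, z₀' ((slam F w₁ ω).1, (slam F w₁ ω).2.1, (slam F w₁ ω).2.2 / 2 ^ (w₁ - w₀)) =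
      z₀' (slam F w₀ ω) := fun ω => by rw [← slam_coarse F hw hw₁ ω]
  have h2 := hfull (V₀ × V₁) (fun x => (z₀ x, z₁ x))
    (fun s => (z₀' (s.1, s.2.1, s.2.2 / 2 ^ (w₁ - w₀)), z₁' s)) (fun ω hω => by
      rw [e0, H.cls₀ ω hω, H.cls₁ ω hω])
  have hfa := tub_inp (m := m) (J := J) (k := k) (c := c) (P := P) (z₀ := z₀) (z₀' := z₀')
    (g := g) (d := d) (M := M) (lv := lv) (br := br) hQ (AA F z₁' w₁) _
    (fun e e' he he' hz => by
      simp only [Prod.mk.injEq] at hz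
      obtain ⟨a1, ⟨a2, a3⟩, a4⟩ := hz
      rw [e0, e0] at a2
      have a5 := Prod.ext_iff.1 a4
      have a6 : F.T e.2 = F.T e'.2 := a5.1
      have a7 : F.Z e.2 = F.Z e'.2 := a5.2
      obtain ⟨b1, b2, b3⟩ := hs e he
      obtain ⟨b1', b2', b3'⟩ := hs e' he'
      have a8 : F.Z e.1 = F.Z e'.1 := by
        have c1 : F.Z e.1 = F.Z e.2 := (Prod.ext_iff.1 (Prod.ext_iff.1 b3).2).1
        have c2 : F.Z e'.1 = F.Z e'.2 := (Prod.ext_iff.1 (Prod.ext_iff.1 b3').2).1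
        rw [c1, c2, a7]
      refine Prod.ext (Prod.ext a3 a6) (Prod.ext (Prod.ext a1 a8) ?_)
      change z₀' (slam F w₀ e.1) = z₀' (slam F w₀ e'.1)
      rw [b3, b3']
      exact a2)
    (fun e he => H.pos e.1 (hs e he).1)
    (fun e e' he he' => H.sa e e' (hEE e he) (hEE e' he')) h2.1
  have hfb := tub_inp (m := m) (J := J) (k := k) (c := c) (P := P) (z₀ := z₀) (z₀' := z₀')
    (g := g) (d := d) (M := M) (lv := lv) (br := br) hQ (BB F z₁' w₁) _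
    (fun e e' he he' hz => by
      simp only [Prod.mk.injEq] at hz
      obtain ⟨⟨a2, a3⟩, a4⟩ := hz
      rw [e0, e0] at a2
      exact Prod.ext a3 (Prod.ext a4 a2))
    (fun e he => H.pos e.1 (hs e he).1)
    (fun e e' he he' => H.sb e e' (hEE e he) (hEE e' he')) h2.2
  have key := e7 (α := V₁ × ℕ) (β := V₁) (A := AA F z₁' w₁) (B := BB F z₁' w₁)
    (W := WW (k + 1) F c P z₀ z₀' g d w₀ br) (D := fun e (i : Fin (k + 1)) => F.X J e.1 (c i))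
    (Lf := (∑ i : Fin (k + 1), ((J : ℝ) - g i - d)) * Real.log 2) hQ hQE hth
    (fun e e' h1 h2 h3 => by
      simp only [Prod.mk.injEq] at h3
      exact H.da e e' (hEE e h1) (hEE e' h2) h3.1 h3.2)
    (fun e e' h1 h2 h3 => by
      simp only [Prod.mk.injEq] at h3
      exact H.db e e' (hEE e h1) (hEE e' h2) h3.1 h3.2)
    (inp_dc H.tri (fun e he => (hs e he).1) H.cls₀ X _)
    (fun t ht => by
      refine (inp_cnt hQ H.tri (fun e he => (hs e he).1) H.cls₀ fun i => ?_).trans ?_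
      · have h1 := hgJ i i.2
        have h2 := Nat.mul_le_of_le_div _ _ _ (ht i)
        show g i + d + t i * X ≤ J
        have h3 : t i * X ≤ J - (g i + d) := h2
        omega
      · have h1 : ((k + 1 : ℕ) : ℝ) * Real.log 3 ≤ h := by
          have h2 : Real.log 3 ≤ 2 := by
            have := Real.log_le_sub_one_of_pos (show (0 : ℝ) < 3 by norm_num)
            linarith
          have h3 : ((k + 1 : ℕ) : ℝ) * Real.log 3 ≤ (k + 1 : ℕ) * 2 :=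
            mul_le_mul_of_nonneg_left h2 (Nat.cast_nonneg (k + 1))
          have h4 : (((k + 1) * 2 : ℕ) : ℝ) ≤ h := by exact_mod_cast (by omega : (k + 1) * 2 ≤ h)
          push_cast at h4 h3 ⊢
          linarith
        push_cast at h1 ⊢
        linarith)
    (hE₀.trans hfb) (hE₀.trans hfa)
  have e11 : (fun e : F.Ω × F.Ω => F.x e.1 (c (k + 1)) / 2 ^ sg / 2 ^ G) =
      fun e => F.x e.1 (c (k + 1)) / 2 ^ (sg + G) := by
    funext e
    rw [pow_add, div_div]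
  rw [← e11]
  exact key

end Pool.R1
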