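import Pool.Agent.H22.M.Stm
import Pool.Agent.H15.R2E.TubJ

/-!
# H15/R2E/Plr: from the member of plan M to the rows in the tube

`tub_of`: the data `PlnM` on a part of the event on which the arrays are used and the order-one part
of their difference dominates (`lin`) is the geometry `TubJ` of the tube, with `k = 2`, `lv = 2`.
`tub_rows`: the rows.
-/

set_option autoImplicit false

namespace Pool.PM

open Finset Real MvPolynomial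
open Pool.Agent.H49.Ent Pool.Agent.H32.Dense Pool.STK Pool.KA Pool.KSAT Pool.K2S Pool.PB
  Pool.STAT Pool.GEN Pool.M3F Pool.KM7 Pool.S6C Pool.JPN
open Pool.JMN (shf tdg)
open Pool.SPN (sg1)
open Pool.R1 (TubJ Rows tfam pb_pe)
open Pool.BFL (Pb)

variable {m J : ℕ}

/-- The natural time is a function of the time. -/
theorem nt_congr {F : Fam m J} (w₀ : ℕ) {ω ω' : F.Ω} (h : F.T ω = F.T ω') :
    nt F w₀ ω = nt F w₀ ω' := by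
  unfold nt Fam.t Fam.T1
  rw [h]

/-- The events are compared on the support. -/
theorem Pe_le_supp {Ω : Type} [Fintype Ω] {p : Ω → ℝ} (hp : ∀ ω, 0 ≤ p ω) {A B : Ω → Prop}
    (h : ∀ ω, 0 < p ω → A ω → B ω) : Pe p A ≤ Pe p B := by
  classical
  rw [Pe_eq, Pe_eq]
  refine Finset.sum_le_sum fun ω _ => ?_
  by_cases hA : A ω
  · rw [if_pos hA]
    rcases (hp ω).eq_or_lt with h0 | h0
    · rw [← h0]
      split_ifs <;> simp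
    · rw [if_pos (h ω h0 hA)]
  · rw [if_neg hA]
    split_ifs
    exacts [hp ω, le_rfl]

/-- Two points of one sheet. -/
theorem lev_near {h L d : ℕ} (hLd : L ≤ d) {q : Fin 4 → ℝ} (hq : ∀ i, |q i| ≤ 2 ^ h)
    {τ y y' z z' v v' : ℝ} (h1 : |v - lev q τ y z| ≤ 1 / 2 ^ L)
    (h2 : |v' - lev q τ y' z'| ≤ 1 / 2 ^ L) (h3 : |y - y'| ≤ 1 / 2 ^ d)
    (h4 : |z - z'| ≤ 1 / 2 ^ d) : |v - v'| ≤ 2 ^ (d - L + h + 2) / 2 ^ d := by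
  have e1 : v - v' = (v - lev q τ y z) - (v' - lev q τ y' z') + (q 2 * (y - y') +
      q 3 * (z - z')) := by
    unfold lev
    ring
  have e2 : |q 2 * (y - y')| ≤ 2 ^ h * (1 / 2 ^ d) := by
    rw [abs_mul]
    exact mul_le_mul (hq 2) h3 (abs_nonneg _) (by positivity)
  have e3 : |q 3 * (z - z')| ≤ 2 ^ h * (1 / 2 ^ d) := by
    rw [abs_mul]
    exact mul_le_mul (hq 3) h4 (abs_nonneg _) (by positivity)
  have e4 : |v - v'| ≤ 1 / 2 ^ L + 1 / 2 ^ L + (2 ^ h * (1 / 2 ^ d) + 2 ^ h * (1 / 2 ^ d)) := by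
    rw [e1]
    exact (abs_add_le _ _).trans (add_le_add ((abs_sub _ _).trans (add_le_add h1 h2))
      ((abs_add_le _ _).trans (add_le_add e2 e3)))
  refine e4.trans ?_
  have hd : (2 : ℝ) ^ d = 2 ^ (d - L) * 2 ^ L := by
    rw [← pow_add]
    congr 1
    omega
  have e5 : (1 : ℝ) / 2 ^ L = 2 ^ (d - L) / 2 ^ d := by
    rw [hd]
    have : (2 : ℝ) ^ (d - L) ≠ 0 := by positivity
    have : (2 : ℝ) ^ L ≠ 0 := by positivity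
    field_simp
  rw [e5]
  have e6 : (2 : ℝ) ^ (d - L) / 2 ^ d + 2 ^ (d - L) / 2 ^ d +
      (2 ^ h * (1 / 2 ^ d) + 2 ^ h * (1 / 2 ^ d)) = (2 * 2 ^ (d - L) + 2 * 2 ^ h) / 2 ^ d := by
    ring
  rw [e6]
  refine div_le_div_of_nonneg_right ?_ (by positivity)
  have e7 : (2 : ℝ) ^ (d - L + h + 2) = 4 * (2 ^ (d - L) * 2 ^ h) := by
    rw [pow_add, pow_add]
    ring
  rw [e7]
  have f1 : (1 : ℝ) ≤ 2 ^ (d - L) := one_le_pow₀ (by norm_num)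
  have f2 : (1 : ℝ) ≤ 2 ^ h := one_le_pow₀ (by norm_num)
  have f3 : (2 : ℝ) ^ (d - L) ≤ 2 ^ (d - L) * 2 ^ h := le_mul_of_one_le_right (by positivity) f2
  have f4 : (2 : ℝ) ^ h ≤ 2 ^ (d - L) * 2 ^ h := le_mul_of_one_le_left (by positivity) f1
  linarith

/-- The order-one part of the difference of the arrays dominates in the cell. -/
def Lin (K : ℕ) (F : Fam m J) (c : ℕ → Fin m) {V₀ : Type} (P : V₀ → ℕ → PN) (z₀ : PtT F → V₀)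
    (g : ℕ → ℕ) (d P₀ : ℕ) (a : F.Ω × F.Ω → (Fin 3 → Fin (K + 1)) → ℝ)
    (b : F.Ω → (Fin 3 → Fin (K + 1)) → ℝ) (e : F.Ω × F.Ω) : Prop :=
  ∃ al : Fin 3 → Fin (K + 1), tdg al = 1 ∧
    1 / 2 ^ P₀ ≤ |shf (yc 3 F c P z₀ g d e.1) (fun α => a e α - b e.1 α) al| ∧
    ∀ al', 1 ≤ tdg al' → |shf (yc 3 F c P z₀ g d e.1) (fun α => a e α - b e.1 α) al'| ≤
      |shf (yc 3 F c P z₀ g d e.1) (fun α => a e α - b e.1 α) al|

/-- **From the member of plan M to the tube.** -/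
theorem tub_of {K : ℕ} {hK : 1 ≤ K} {F : Fam m J} {A : F.Ω → Prop} {c : ℕ → Fin m}
    {w₀ w₁ h θ d L Ln sg Pn G P₀ : ℕ} {η : ℝ} {g : ℕ → ℕ} {V₀ V₁ : Type} {P : V₀ → ℕ → PN}
    {z₀ : PtT F → V₀} {z₀' : LnT F → V₀} {z₁ : PtT F → V₁} {z₁' : LnT F → V₁}
    {lf : V₁ → V₀ → Fin 2 → Fin 4 → ℝ} {n₀ : ℕ} {br : F.Ω × F.Ω → Fin n₀}
    {a : F.Ω × F.Ω → (Fin 3 → Fin (K + 1)) → ℝ} {b : F.Ω → (Fin 3 → Fin (K + 1)) → ℝ}
    {χ : V₀ → Fin 3 → ℝ} {M : F.Ω × F.Ω → ℝ} {E : F.Ω × F.Ω → Prop}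
    (H : PlnM hK F A c w₀ w₁ h θ d L Ln sg Pn G η g P z₀ z₀' z₁ z₁' lf br a b χ M E)
    (hLd : L ≤ d) {E₁ : F.Ω × F.Ω → Prop}
    (hE₁ : ∀ e, E₁ e → E e ∧ A e.1 ∧ A e.2 ∧ slam F w₀ e.1 = slam F w₀ e.2 ∧
      Thk h L Ln (M e) ∧ Lin K F c P z₀ g d P₀ a b e) :
    TubJ 2 K n₀ F A c w₀ w₁ sg d (d - L + h + 2) G Pn P₀ g (Fin.last 2) P z₀ z₀' z₁ z₁' br a
      (fun e => b e.1) E₁ where
  tri := H.tri
  cls₀ := H.cls₀
  cls₁ := H.cls₁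
  pos := fun ω hω i hi => H.pos ω hω i (by omega)
  da := fun e e' he he' h1 h2 => by
    obtain ⟨a1, -, -, -, a2, -⟩ := hE₁ e he
    obtain ⟨b1, -, -, -, b2, -⟩ := hE₁ e' he'
    exact H.da e e' a1 b1 a2 b2 h1 h2
  db := fun e e' he he' h1 h2 => by
    obtain ⟨a1, a3, -, -, a2, -⟩ := hE₁ e he
    obtain ⟨b1, b3, -, -, b2, -⟩ := hE₁ e' he'
    have h3 := Prod.ext_iff.1 h2
    have h4 := Prod.ext_iff.1 h3.2
    have h5 := Prod.ext_iff.1 h4.2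
    exact H.db e.1 e'.1 a3 b3 h1 h3.1 h4.1 h5.1
  na := fun e he => by
    obtain ⟨a1, -, -, -, a2, -⟩ := hE₁ e he
    exact H.na e a1 a2
  nb := fun e he => by
    obtain ⟨a1, -, -, -, a2, -⟩ := hE₁ e he
    exact H.nb e a1 a2
  ga := fun e he => by
    obtain ⟨a1, -, -, -, a2, -⟩ := hE₁ e he
    exact H.ga e a1 a2
  gb := fun e he => by
    obtain ⟨a1, -, -, -, a2, -⟩ := hE₁ e he
    exact H.gb e a1 a2
  lin := fun e he => by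
    obtain ⟨a1, -, -, -, a2, a3⟩ := hE₁ e he
    exact a3
  sa := fun e e' he he' h1 h2 h3 h4 => by
    obtain ⟨a1, a2, a3, a4, -, -⟩ := hE₁ e he
    obtain ⟨b1, b2, b3, b4, -, -⟩ := hE₁ e' he'
    have h5 : z₁ (ptr F J e.2) = z₁ (ptr F J e'.2) := by
      rw [H.cls₁ _ a3, H.cls₁ _ b3]
      exact (Prod.ext_iff.1 h1).1
    have h6 : z₀ (ptr F J e.1) = z₀ (ptr F J e'.1) := by
      rw [H.cls₀ _ a2, H.cls₀ _ b2]
      exact h3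
    have h7 : nt F w₀ e.1 = nt F w₀ e'.1 := nt_congr w₀ (Prod.ext_iff.1 h2).1
    have h8 := H.onl₀ e a1
    have h9 := H.onl₀ e' b1
    unfold lfv at h8 h9
    rw [← h5, ← h6, ← h7] at h9
    exact lev_near hLd (fun i => (H.siz e a1 0 i).2) h8 h9 (h4 0) (h4 1)
  sb := fun e e' he he' h1 h2 h3 h4 => by
    obtain ⟨a1, a2, a3, a4, -, -⟩ := hE₁ e he
    obtain ⟨b1, b2, b3, b4, -, -⟩ := hE₁ e' he'
    have h5 : z₁ (ptr F J e.1) = z₁ (ptr F J e'.1) := by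
      rw [H.cls₁ _ a2, H.cls₁ _ b2]
      exact h1
    have h6 : z₀ (ptr F J e.1) = z₀ (ptr F J e'.1) := by
      rw [H.cls₀ _ a2, H.cls₀ _ b2]
      exact h3
    have h7 : nt F w₀ e.1 = nt F w₀ e'.1 := nt_congr w₀ (Prod.ext_iff.1 h2).1
    have h8 := H.own₀ e a1
    have h9 := H.own₀ e' b1
    unfold lfv at h8 h9
    rw [← h5, ← h6, ← h7] at h9
    exact lev_near hLd (fun i => (H.siz e a1 0 i).1) h8 h9 (h4 0) (h4 1)

/-- **The rows in the tube, from the member of plan M.** -/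
theorem tub_rows : ∃ C1 : ℝ, 0 ≤ C1 ∧ ∀ K : ℕ, ∃ (c₀ : ℕ) (C2 : ℝ), 0 ≤ C2 ∧
    ∀ {m J : ℕ} {hK : 1 ≤ K} {F : Fam m J} {A : F.Ω → Prop} {c : ℕ → Fin m}
      {w₀ w₁ h θ d L Ln sg Pn G : ℕ} {η : ℝ} {g : ℕ → ℕ} {V₀ V₁ : Type} {P : V₀ → ℕ → PN}
      {z₀ : PtT F → V₀} {z₀' : LnT F → V₀} {z₁ : PtT F → V₁} {z₁' : LnT F → V₁}
      {lf : V₁ → V₀ → Fin 2 → Fin 4 → ℝ} {n₀ : ℕ} {br : F.Ω × F.Ω → Fin n₀}
      {a : F.Ω × F.Ω → (Fin 3 → Fin (K + 1)) → ℝ} {b : F.Ω → (Fin 3 → Fin (K + 1)) → ℝ}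
      {χ : V₀ → Fin 3 → ℝ} {M : F.Ω × F.Ω → ℝ} {E : F.Ω × F.Ω → Prop},
      PlnM hK F A c w₀ w₁ h θ d L Ln sg Pn G η g P z₀ z₀' z₁ z₁' lf br a b χ M E →
      0 < Pe F.p A → w₀ ≤ w₁ → w₁ ≤ J → (∀ i < 3, g i + d ≤ J) → L ≤ d →
      ∀ (X hh Pp P₀ hi : ℕ), c₀ ≤ hh → 1 ≤ X → P₀ + G + c₀ < hh * (Pp + 1) → P₀ + G ≤ hi →
      hi + 2 * X + 2 * hh + c₀ ≤ J → hi + X + 1 ≤ Pn + G →
      ∃ (n₁ n₂ S : ℕ) (E' : F.Ω × F.Ω → Prop),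
        (∀ e, E' e → E e ∧ Thk h L Ln (M e) ∧ Lin K F c P z₀ g d P₀ a b e) ∧
        Pe (P2 (Pool.Agent.H49.Ent.cond F.p A True) (slam F w₀))
          (fun e => E e ∧ Thk h L Ln (M e) ∧ Lin K F c P z₀ g d P₀ a b e) ≤ ((Pp : ℝ) + 1) *
          Pe (P2 (Pool.Agent.H49.Ent.cond F.p A True) (slam F w₀)) E' ∧
        P₀ + G ≤ n₁ ∧ n₁ ≤ P₀ + G + X ∧ hi ≤ n₂ ∧ n₂ ≤ hi + X ∧ n₂ = n₁ + S * X ∧
        ∀ {Q : F.Ω × F.Ω → ℝ} {E₀ th : ℝ}, IsLaw Q →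
          (∀ e, 0 < Q e → E' e ∧
            0 < P2 (Pool.Agent.H49.Ent.cond F.p A True) (slam F w₀) e) → 0 ≤ th →
          (∀ (V : Type) (z : PtT F → V) (z' : LnT F → V),
            (∀ ω, A ω → z (ptr F J ω) = z' (slam F w₁ ω)) →
            E₀ ≤ CH Q (fun e (i : Fin 3) => F.X J e.1 (c i))
              (fun e => (F.T e.1, (z' (slam F w₁ e.2), F.W e.2))) ∧
            E₀ ≤ CH Q (fun e (i : Fin 3) => F.X J e.1 (c i))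
              (fun e => (z' (slam F w₁ e.1), F.W e.1))) →
          (∑ i : Fin 3, ((J : ℝ) - g i - d)) * Real.log 2 - th ≤
            E₀ - (2 * (d * Real.log 2 + Real.log 7) +
              Real.log (2 * 2 ^ (d - L + h + 2) + 3)) - Real.log n₀ →
          Rows Q (fun e => F.x e.1 (c 3) / 2 ^ (sg + G))
            (fun e (i : Fin 3) => F.X J e.1 (c i))
            (WW 3 F c P z₀ z₀' g d w₀ br) n₁ n₂
            (C1 * (((S : ℝ) + 1) * th + X) + C2 * (((S : ℝ) + 1) * (1 + hh))) := by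
  classical
  obtain ⟨C1, hC1, hcore⟩ := tfam 2
  refine ⟨C1, hC1, fun K => ?_⟩
  obtain ⟨c₀, C2, hC2, hcore⟩ := hcore K
  refine ⟨c₀, C2, hC2, ?_⟩
  intro m J hK F A c w₀ w₁ h θ d L Ln sg Pn G η g V₀ V₁ P z₀ z₀' z₁ z₁' lf n₀ br a b χ M E H hA hw
    hw₁ hgJ hLd X hh Pp P₀ hi hc hX hPp hhi hJ hPn
  have hl := isLaw_cond F.isLaw hA
  have hP2 := P2_isLaw hl (slam F w₀)
  obtain ⟨E₁, hE₁⟩ : ∃ E₁ : F.Ω × F.Ω → Prop, E₁ = fun e =>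
      (E e ∧ Thk h L Ln (M e) ∧ Lin K F c P z₀ g d P₀ a b e) ∧
        0 < P2 (Pool.Agent.H49.Ent.cond F.p A True) (slam F w₀) e := ⟨_, rfl⟩
  have hT : TubJ 2 K n₀ F A c w₀ w₁ sg d (d - L + h + 2) G Pn P₀ g (Fin.last 2) P z₀ z₀' z₁ z₁'
      br a (fun e => b e.1) E₁ := by
    refine tub_of H hLd fun e he => ?_
    rw [hE₁] at he
    obtain ⟨⟨a1, a2, a3⟩, a4⟩ := he
    obtain ⟨c1, c2, c3⟩ := (P2_pos hl e).1 a4
    exact ⟨a1, of_eq_true ((cond_pos_iff F.isLaw.nonneg A True e.1).1 c1).2,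
      of_eq_true ((cond_pos_iff F.isLaw.nonneg A True e.2).1 c2).2, c3, a2, a3⟩
  obtain ⟨n₁, n₂, S, E', e1, e2, e3, e4, e5, e6, e7, e8⟩ :=
    hcore hT hA hw hw₁ hgJ X hh Pp hi hc hX hPp hhi hJ hPn
  refine ⟨n₁, n₂, S, E', fun e he => ?_, ?_, e3, e4, e5, e6, e7, ?_⟩
  · have h1 := e1 e he
    rw [hE₁] at h1
    exact h1.1
  · refine le_trans ?_ e2
    rw [hE₁]
    exact Pe_le_supp hP2.nonneg fun e he h1 => ⟨h1, he⟩
  · intro Q E₀ th hQ hQE hth hfull hE₀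
    exact e8 hQ hQE hth hfull (by push_cast at hE₀ ⊢; exact hE₀)

end Pool.PM
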