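import Pool.Agent.H96.R1.R1L

/-!
# H15/R2E/Prm: the local theorem of row R1 without an order on the exhausted coordinates

`SupN` is `Pool.R1.Sup` without the field `anti`; the coordinates are permuted so that the depths
`cap` are decreasing.
-/

set_option autoImplicit false

namespace Pool.R1

open Finset Real
open Pool.Agent.H49.Ent Pool.Agent.H32.Dense Pool.STK

variable {Ω α β τ δ : Type} {k K : ℕ}

/-- `Sup` without `anti`. -/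
structure SupN [Fintype Ω] (p : Ω → ℝ) (k K r X S h s₀ : ℕ) (g : ℕ → ℝ) (cap : Fin k → ℕ) (A : Ω → α)
    (B : Ω → β) (W : Ω → τ) (D : Ω → δ) (y : Ω → Fin k → ℝ) (N : Ω → ℝ)
    (a b : Ω → (Fin k → Fin (K + 1)) → ℝ) (th Lf : ℝ) : Prop where
  law : IsLaw p
  hX : 1 ≤ X
  th0 : 0 ≤ th
  y0 : ∀ ω i, 0 ≤ y ω i
  y1 : ∀ ω i, y ω i < 1
  g0 : ∀ i, 0 ≤ g i
  gm : ∀ i, s₀ ≤ i → i < S → g i ≤ g (i + 1)
  gs : ∀ i, s₀ ≤ i → i < S → g (i + 1) ≤ g i + r * X + 2 * h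
  da : Det p (fun ω => (A ω, W ω)) a
  db : Det p (fun ω => (B ω, W ω)) b
  up : ∀ ω, 0 < p ω → ∀ i, s₀ ≤ i → i ≤ S → ∀ z : Fin k → ℝ,
    (∀ l, |z l - y ω l| ≤ 1 / 2 ^ (i * X)) →
    |Pool.JMN.ev (a ω) z - Pool.JMN.ev (b ω) z| ≤ (2 : ℝ) ^ ((h : ℝ) - g i)
  lo : ∀ ω, 0 < p ω → ∀ i, s₀ ≤ i → i ≤ S → ∃ z : Fin k → ℝ,
    (∀ l, |z l - y ω l| ≤ 1 / 2 ^ (i * X)) ∧
    (2 : ℝ) ^ (-(g i) - h) ≤ |Pool.JMN.ev (a ω) z - Pool.JMN.ev (b ω) z|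
  ga : ∀ ω, 0 < p ω → ∀ z z' : Fin k → ℝ, (∀ l, |z l| ≤ 2) → (∀ l, |z' l| ≤ 2) →
    (∀ l, |z l - z' l| ≤ 2 / 2 ^ (cap l * X)) →
    |Pool.JMN.ev (a ω) z - Pool.JMN.ev (a ω) z'| ≤ (2 : ℝ) ^ (-(g S) - h - 3)
  gb : ∀ ω, 0 < p ω → ∀ z z' : Fin k → ℝ, (∀ l, |z l| ≤ 2) → (∀ l, |z' l| ≤ 2) →
    (∀ l, |z l - z' l| ≤ 2 / 2 ^ (cap l * X)) →
    |Pool.JMN.ev (b ω) z - Pool.JMN.ev (b ω) z'| ≤ (2 : ℝ) ^ (-(g S) - h - 3)
  nn : ∀ ω, 0 < p ω → |N ω - Pool.JMN.ev (a ω) (y ω)| ≤ (2 : ℝ) ^ (-(g S) - 1)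
  dc : Det p (fun ω => (D ω, W ω)) (cv X y cap)
  cnt : ∀ d : Fin k → ℕ, (∀ l, d l ≤ cap l) →
    CH p D (fun ω => (W ω, cv X y d ω)) ≤ Lf - (∑ l, (d l : ℝ)) * (X * Real.log 2) + h
  fb : Lf - th ≤ CH p D (fun ω => (B ω, W ω))
  fa : Lf - th ≤ CH p D (fun ω => (A ω, W ω))

/-- permuted array. -/
def prm (σ : Equiv.Perm (Fin k)) (q : (Fin k → Fin (K + 1)) → ℝ) (α : Fin k → Fin (K + 1)) : ℝ :=
  q (fun i => α (σ.symm i))

theorem ev_prm (σ : Equiv.Perm (Fin k)) (q : (Fin k → Fin (K + 1)) → ℝ) (z : Fin k → ℝ) :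
    Pool.JMN.ev (prm σ q) (fun i => z (σ i)) = Pool.JMN.ev q z := by
  unfold Pool.JMN.ev prm
  have h := Equiv.sum_comp (Equiv.arrowCongr σ (Equiv.refl (Fin (K + 1))))
    (fun β : Fin k → Fin (K + 1) => q β * ∏ i, z i ^ (β i : ℕ))
  rw [← h]
  refine Finset.sum_congr rfl fun α _ => ?_
  have e1 : (Equiv.arrowCongr σ (Equiv.refl (Fin (K + 1)))) α = fun i => α (σ.symm i) := by
    funext i
    rfl
  rw [e1]
  congr 1
  have h2 := Equiv.prod_comp σ (fun i => z i ^ (α (σ.symm i) : ℕ))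
  rw [← h2]
  refine Finset.prod_congr rfl fun i _ => ?_
  rw [Equiv.symm_apply_apply]

theorem ev_prm' (σ : Equiv.Perm (Fin k)) (q : (Fin k → Fin (K + 1)) → ℝ) (z : Fin k → ℝ) :
    Pool.JMN.ev (prm σ q) z = Pool.JMN.ev q (fun i => z (σ.symm i)) := by
  rw [← ev_prm σ q (fun i => z (σ.symm i))]
  refine congrArg _ (funext fun i => ?_)
  rw [Equiv.symm_apply_apply]

theorem exists_anti (cap : Fin k → ℕ) : ∃ σ : Equiv.Perm (Fin k),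
    ∀ i j : Fin k, i ≤ j → cap (σ j) ≤ cap (σ i) := by
  refine ⟨Tuple.sort (fun i => OrderDual.toDual (cap i)), fun i j hij => ?_⟩
  have h := Tuple.monotone_sort (fun i => OrderDual.toDual (cap i)) hij
  exact h

/-- The permuted data. -/
theorem SupN.perm [Fintype Ω] {p : Ω → ℝ} {r X S h s₀ : ℕ} {g : ℕ → ℝ}
    {cap : Fin k → ℕ} {A : Ω → α} {B : Ω → β} {W : Ω → τ} {D : Ω → δ} {y : Ω → Fin k → ℝ}
    {N : Ω → ℝ} {a b : Ω → (Fin k → Fin (K + 1)) → ℝ} {th Lf : ℝ}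
    (H : SupN p k K r X S h s₀ g cap A B W D y N a b th Lf) (σ : Equiv.Perm (Fin k))
    (hσ : ∀ i j : Fin k, i ≤ j → cap (σ j) ≤ cap (σ i)) :
    Sup p k K r X S h s₀ g (fun i => cap (σ i)) A B W D (fun ω i => y ω (σ i)) N
      (fun ω => prm σ (a ω)) (fun ω => prm σ (b ω)) th Lf := by
  have hev : ∀ (q : (Fin k → Fin (K + 1)) → ℝ) (z : Fin k → ℝ),
      Pool.JMN.ev (prm σ q) z = Pool.JMN.ev q (fun i => z (σ.symm i)) := ev_prm' σ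
  have hs : ∀ l, σ (σ.symm l) = l := fun l => σ.apply_symm_apply l
  constructor
  · exact H.law
  · exact H.hX
  · exact H.th0
  · exact fun ω i => H.y0 ω _
  · exact fun ω i => H.y1 ω _
  · exact H.g0
  · exact H.gm
  · exact H.gs
  · exact hσ
  · exact fun ω ω' h1 h2 h3 => congrArg (prm σ) (H.da ω ω' h1 h2 h3)
  · exact fun ω ω' h1 h2 h3 => congrArg (prm σ) (H.db ω ω' h1 h2 h3)
  · intro ω hω i h1 h2 z hz
    rw [hev, hev]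
    refine H.up ω hω i h1 h2 _ fun l => ?_
    have := hz (σ.symm l)
    rw [hs] at this
    exact this
  · intro ω hω i h1 h2
    obtain ⟨z, hz, hlo⟩ := H.lo ω hω i h1 h2
    refine ⟨fun i => z (σ i), fun l => hz (σ l), ?_⟩
    rw [ev_prm, ev_prm]
    exact hlo
  · intro ω hω z z' h1 h2 h3
    rw [hev, hev]
    refine H.ga ω hω _ _ (fun l => h1 _) (fun l => h2 _) fun l => ?_
    have := h3 (σ.symm l)
    rw [hs] at this
    exact this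
  · intro ω hω z z' h1 h2 h3
    rw [hev, hev]
    refine H.gb ω hω _ _ (fun l => h1 _) (fun l => h2 _) fun l => ?_
    have := h3 (σ.symm l)
    rw [hs] at this
    exact this
  · intro ω hω
    rw [ev_prm]
    exact H.nn ω hω
  · intro ω ω' h1 h2 h3
    have := H.dc ω ω' h1 h2 h3
    funext i
    exact congrFun this (σ i)
  · intro d hd
    have h1 := H.cnt (fun l => d (σ.symm l)) (fun l => by
      have := hd (σ.symm l)
      rw [hs] at this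
      exact this)
    have h2 : ∑ l, ((d (σ.symm l) : ℕ) : ℝ) = ∑ l, (d l : ℝ) :=
      Equiv.sum_comp σ.symm (fun l => (d l : ℝ))
    rw [h2] at h1
    refine le_trans (CH_mono_cond H.law.nonneg ?_) h1
    intro ω ω' _ _ h3
    obtain ⟨h4, h5⟩ := Prod.ext_iff.mp h3
    refine Prod.ext h4 ?_
    funext l
    have h6 := congrFun h5 (σ.symm l)
    simp only [cv] at h6 ⊢
    rw [hs] at h6
    exact h6
  · exact H.fb
  · exact H.fa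

/-- **The local theorem, without an order on the exhausted coordinates.** -/
theorem r1l_n (k r : ℕ) :
    ∃ C1 : ℝ, 0 ≤ C1 ∧ ∀ K : ℕ, ∃ C2 : ℝ, 0 ≤ C2 ∧
    ∀ {Ω α β τ δ : Type} [Fintype Ω] {p : Ω → ℝ} {X S h s₀ : ℕ} {g : ℕ → ℝ} {cap : Fin k → ℕ}
      {A : Ω → α} {B : Ω → β} {W : Ω → τ} {D : Ω → δ} {y : Ω → Fin k → ℝ} {N : Ω → ℝ}
      {a b : Ω → (Fin k → Fin (K + 1)) → ℝ} {th Lf : ℝ},
      SupN p k K r X S h s₀ g cap A B W D y N a b th Lf → s₀ ≤ S →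
      Rows p N D W ⌈g s₀⌉₊ ⌈g S⌉₊ (C1 * ((((S - s₀ : ℕ) : ℝ) + 1) * th + X) +
        C2 * ((((S - s₀ : ℕ) : ℝ) + 1) * (1 + h))) := by
  obtain ⟨C1, hC1, h1⟩ := r1l k r
  refine ⟨C1, hC1, fun K => ?_⟩
  obtain ⟨C2, hC2, h2⟩ := h1 K
  refine ⟨C2, hC2, ?_⟩
  intro Ω α β τ δ _ p X S h s₀ g cap A B W D y N a b th Lf H hs
  obtain ⟨σ, hσ⟩ := exists_anti cap
  exact h2 (H.perm σ hσ) hs

end Pool.R1
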